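import Pool.Agent.DCS.Bcn

/-!
# DCL-BcnL: the number of the cherries, linear in the defect and in the second moment

As `DCS.bad_count`. For a bad tuple `bad_point` gives `k ≤ def' + |kap x ∩ kap y| + def x + def y`; with
`r = |kap x ∩ kap y| - t`, `r ≤ a / 2 + r² / (2 a)`, so `a / 2 ≤ def' + def x + def y + r² / (2 a)`. Sum over the bad tuples
(`r² ≥ 0`: enlarge to all tuples, `bcn_sumT`), times 2.
-/

open Finset Pool.Agent.Helper2.DC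

namespace Pool.Agent.DCL

open Pool.Agent.DCS

variable {V : Type} [Fintype V] [DecidableEq V]

/-- The number of cherries. -/
theorem bad_count_sq {H : Finset (Finset V)} {k s : ℕ} (hH : ∀ e ∈ H, e.card = k)
    (h0 : NI H (s + 3) = 0) {t a : ℝ} (ha : 0 < a) (hta : t + a ≤ k) :
    a * ∑ J ∈ ind H (s + 1), ∑ w ∈ J, Ch H J w ≤
      ((s : ℝ) + 2) ^ 2 * (6 * (Fintype.card V : ℝ) * Df H k (s + 2) +
        1 / a * ∑ S ∈ ind H (s + 2), ∑ x ∈ Sᶜ, ∑ y ∈ Sᶜ,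
          (((kap H S x ∩ kap H S y).card : ℝ) - t) ^ 2) := by
  classical
  have hE : ∀ S ∈ ind H (s + 2), ext H S = ∅ := fun S hS => ext_empty h0 hS
  have hch := bcn_ch H (s + 1)
  -- the defects
  have hnu : ∀ S ∈ ind H (s + 2), ∀ v ∈ Sᶜ, 0 ≤ (k : ℝ) - 1 - ((kap H S v).card : ℝ) := by
    intro S hS v hv
    have h3 := kap_card_le hH (mem_ind.1 hS).2 (mem_bl_of_compl (hE S hS) hv)
    have h4 : ((kap H S v).card : ℝ) + 1 ≤ (k : ℝ) := by exact_mod_cast h3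
    linarith
  have hamgm : ∀ r : ℝ, r ≤ a / 2 + 1 / (2 * a) * r ^ 2 := by
    intro r
    have h1 : a / 2 + 1 / (2 * a) * r ^ 2 - r = (r - a) ^ 2 / (2 * a) := by
      field_simp
      ring
    have h2 : 0 ≤ (r - a) ^ 2 / (2 * a) := by positivity
    linarith
  set g : Finset V → V → V → ℝ := fun S x y =>
    1 / (2 * a) * (((kap H S x ∩ kap H S y).card : ℝ) - t) ^ 2 +
      ((k : ℝ) - 1 - ((kap H S x).card : ℝ)) + ((k : ℝ) - 1 - ((kap H S y).card : ℝ)) with hg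
  have hpt : ∀ u ∈ bcnB H (s + 2), a / 2 ≤ ((k : ℝ) - 1 -
      ((kap H (bcnS u.1 u.2.1 u.2.2.1 u.2.2.2.1 u.2.2.2.2) u.2.2.2.1).card : ℝ)) +
        g u.1 u.2.1 u.2.2.1 := by
    rintro ⟨S, x, y, z, w⟩ hu
    obtain ⟨⟨hS, hx, hy, hz, hw⟩, hxy, hzw, hzx, hzy, hwx, hwy, hI⟩ := bcn_mem.1 hu
    have h1 := bad_point hH (mem_ind.1 hS).2 hx hy hxy hz hw hzx hzy hwx hwy
    have h2 := hamgm (((kap H S x ∩ kap H S y).card : ℝ) - t)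
    show a / 2 ≤ ((k : ℝ) - 1 - ((kap H (bcnS S x y z w) z).card : ℝ)) +
      (1 / (2 * a) * (((kap H S x ∩ kap H S y).card : ℝ) - t) ^ 2 +
        ((k : ℝ) - 1 - ((kap H S x).card : ℝ)) + ((k : ℝ) - 1 - ((kap H S y).card : ℝ)))
    unfold bcnS
    linarith
  have h1 : a / 2 * ((bcnB H (s + 2)).card : ℝ) ≤
      ∑ u ∈ bcnB H (s + 2), (((k : ℝ) - 1 -
        ((kap H (bcnS u.1 u.2.1 u.2.2.1 u.2.2.2.1 u.2.2.2.2) u.2.2.2.1).card : ℝ)) +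
          g u.1 u.2.1 u.2.2.1) := by
    rw [mul_comm, ← nsmul_eq_mul, ← sum_const]
    exact sum_le_sum hpt
  rw [sum_add_distrib] at h1
  have h2 := bcn_sum1 (M := s + 2) hH hE
  have h3 : ∑ u ∈ bcnB H (s + 2), g u.1 u.2.1 u.2.2.1 ≤
      ∑ u ∈ bcnT H (s + 2), g u.1 u.2.1 u.2.2.1 := by
    refine sum_le_sum_of_subset_of_nonneg (filter_subset _ _) ?_
    rintro ⟨S, x, y, z, w⟩ hu _
    unfold bcnT at hu
    rw [mem_sigma] at hu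
    simp only [mem_product] at hu
    have h4 := hnu S hu.1 x hu.2.1
    have h5 := hnu S hu.1 y hu.2.2.1
    have h6 : 0 ≤ 1 / (2 * a) * (((kap H S x ∩ kap H S y).card : ℝ) - t) ^ 2 := by positivity
    show 0 ≤ 1 / (2 * a) * (((kap H S x ∩ kap H S y).card : ℝ) - t) ^ 2 +
      ((k : ℝ) - 1 - ((kap H S x).card : ℝ)) + ((k : ℝ) - 1 - ((kap H S y).card : ℝ))
    linarith
  rw [bcn_sumT] at h3
  have h4 : ∑ S ∈ ind H (s + 2), ∑ x ∈ Sᶜ, ∑ y ∈ Sᶜ, g S x y ≤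
      2 * (Fintype.card V : ℝ) * Df H k (s + 2) +
        1 / (2 * a) * ∑ S ∈ ind H (s + 2), ∑ x ∈ Sᶜ, ∑ y ∈ Sᶜ,
          (((kap H S x ∩ kap H S y).card : ℝ) - t) ^ 2 := by
    unfold Df
    rw [mul_sum, mul_sum, ← sum_add_distrib]
    refine sum_le_sum fun S hS => ?_
    rw [bcn_bl (hE S hS)]
    have hc : ((Sᶜ).card : ℝ) ≤ (Fintype.card V : ℝ) := by exact_mod_cast card_le_univ _
    have hs0 : 0 ≤ ∑ v ∈ Sᶜ, ((k : ℝ) - 1 - ((kap H S v).card : ℝ)) := sum_nonneg (hnu S hS)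
    have e1 : ∑ x ∈ Sᶜ, ∑ y ∈ Sᶜ, g S x y =
        1 / (2 * a) * ∑ x ∈ Sᶜ, ∑ y ∈ Sᶜ, (((kap H S x ∩ kap H S y).card : ℝ) - t) ^ 2 +
          ((Sᶜ).card : ℝ) * ∑ v ∈ Sᶜ, ((k : ℝ) - 1 - ((kap H S v).card : ℝ)) +
          ((Sᶜ).card : ℝ) * ∑ v ∈ Sᶜ, ((k : ℝ) - 1 - ((kap H S v).card : ℝ)) := by
      simp only [hg]
      have e2 : ∀ x ∈ Sᶜ, ∑ y ∈ Sᶜ, (1 / (2 * a) * (((kap H S x ∩ kap H S y).card : ℝ) - t) ^ 2 +
          ((k : ℝ) - 1 - ((kap H S x).card : ℝ)) + ((k : ℝ) - 1 - ((kap H S y).card : ℝ))) =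
          1 / (2 * a) * ∑ y ∈ Sᶜ, (((kap H S x ∩ kap H S y).card : ℝ) - t) ^ 2 +
            ((Sᶜ).card : ℝ) * ((k : ℝ) - 1 - ((kap H S x).card : ℝ)) +
            ∑ v ∈ Sᶜ, ((k : ℝ) - 1 - ((kap H S v).card : ℝ)) := by
        intro x _
        rw [sum_add_distrib, sum_add_distrib, sum_const, nsmul_eq_mul, mul_sum]
      rw [sum_congr rfl e2, sum_add_distrib, sum_add_distrib, ← mul_sum, ← mul_sum, sum_const,
        nsmul_eq_mul]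
    rw [e1]
    have h5 := mul_le_mul_of_nonneg_right hc hs0
    nlinarith
  have hM : (((s + 2 : ℕ) : ℝ)) = (s : ℝ) + 2 := by push_cast; ring
  rw [hM] at h2 h3
  have hM2 : (0 : ℝ) ≤ ((s : ℝ) + 2) ^ 2 := by positivity
  have h5 := mul_le_mul_of_nonneg_left h4 hM2
  have h6 := mul_le_mul_of_nonneg_left hch ha.le
  obtain ⟨Q, hQ⟩ : ∃ Q : ℝ, Q = ∑ S ∈ ind H (s + 2), ∑ x ∈ Sᶜ, ∑ y ∈ Sᶜ,
      (((kap H S x ∩ kap H S y).card : ℝ) - t) ^ 2 := ⟨_, rfl⟩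
  rw [← hQ] at h5 ⊢
  have h7 : 1 / a * Q = 2 * (1 / (2 * a) * Q) := by
    field_simp
  rw [h7]
  calc a * ∑ J ∈ ind H (s + 1), ∑ w ∈ J, Ch H J w
      ≤ a * ((bcnB H (s + 2)).card : ℝ) := h6
    _ ≤ _ := by nlinarith

end Pool.Agent.DCL
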