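import Pool.Agent.DCL.Ovl

/-!
# DCL-FlA: the number of the tuples which begin with `x`, in the sense of the second moment

`a` = expected number of points, `1 - p` = expected density of the non adjacent pairs. The error `Li` is
`∑ x (|nn x| - (1 - p) a)² + a (|X| - a)² +` number of cherries.

`cc_abs_le`: every factor has absolute value at most `i + 1 ≤ j`.
`step_sq`: Cauchy-Schwarz on the fibre (`Ff_le`: at most `(K a) ^ j` tuples), `(T - j ν + o)² ≤ 3 (T² + j² ν² + o²)`,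
`T² ≤ (j + 1) ∑ i tt²`, `o² ≤ (j + 1) |X| o` (`ov_le`, `ov_nonneg`); sum over `x` (`sum_first`, `sum_coord`):
`∑ f ∑ i tt (f i)² = (j + 1) ∑ x Ff x tt x² ≤ (j + 1) (K a) ^ j ∑ x tt²`, `∑ f ν² ≤ (K a) ^ (j + 1) ν²`,
`∑ f o ≤ (j + 1)² |X| ^ (j - 1) ch` for `j ≥ 1` (`ov_sum` with `j + 1`); for `j = 0` the overlap is `0` (`cm_eq` is
`cm = nn (f 0)`, or `ov_le_pairs` and `ov_nonneg`).
-/

set_option linter.unusedSectionVars false

open Finset

namespace Pool.Agent.DCL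

open Pool.Agent.DCS (nb nn)

variable {V : Type} [Fintype V] [DecidableEq V]

/-- `∏ i ≤ j (1 - i p)` -/
noncomputable def cc (p : ℝ) (j : ℕ) : ℝ := ∏ i ∈ range j, (1 - ((i : ℝ) + 1) * p)

/-- the deviation of the number of the points which are not adjacent to `x` -/
noncomputable def tt (X : Finset V) (R : V → V → Prop) (a p : ℝ) (x : V) : ℝ :=
  ((nn X R x).card : ℝ) - (1 - p) * a

/-- the error -/
noncomputable def Li (X : Finset V) (R : V → V → Prop) (a p : ℝ) : ℝ :=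
  ∑ x ∈ X, tt X R a p x ^ 2 + a * ((X.card : ℝ) - a) ^ 2 + ch X R

theorem Li_nonneg {X : Finset V} {R : V → V → Prop} {a p : ℝ} (ha : 0 ≤ a) : 0 ≤ Li X R a p := by
  unfold Li
  have h1 : 0 ≤ ∑ x ∈ X, tt X R a p x ^ 2 := sum_nonneg fun _ _ => sq_nonneg _
  have h2 : 0 ≤ a * ((X.card : ℝ) - a) ^ 2 := mul_nonneg ha (sq_nonneg _)
  have h3 := ch_nonneg X R
  linarith

theorem cc_abs_le {p : ℝ} (hp0 : 0 ≤ p) (hp1 : p ≤ 1) (j : ℕ) : |cc p j| ≤ ((j : ℝ) + 1) ^ j := by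
  unfold cc
  rw [abs_prod]
  have h : ∏ i ∈ range j, |1 - ((i : ℝ) + 1) * p| ≤ ∏ i ∈ range j, ((j : ℝ) + 1) := by
    refine prod_le_prod (fun _ _ => abs_nonneg _) fun i hi => ?_
    have hi' : (i : ℝ) + 1 ≤ (j : ℝ) := by exact_mod_cast mem_range.1 hi
    have hi0 : (0 : ℝ) ≤ i := Nat.cast_nonneg i
    have h1 : 0 ≤ ((i : ℝ) + 1) * p := by positivity
    have h2 : ((i : ℝ) + 1) * p ≤ (i : ℝ) + 1 := by nlinarith
    rw [abs_le]
    constructor <;> linarith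
  refine h.trans (le_of_eq ?_)
  rw [prod_const, card_range]

/-- the number of the extensions of a tuple -/
theorem cm_eq (X : Finset V) (R : V → V → Prop) (a p : ℝ) {j : ℕ} (f : Fin (j + 1) → V) :
    ((cm X R f).card : ℝ) = (1 - ((j : ℝ) + 1) * p) * a +
      (∑ i, tt X R a p (f i) - (j : ℝ) * ((X.card : ℝ) - a) + ov X R f) := by
  unfold ov tt
  rw [sum_sub_distrib, sum_const, card_univ, Fintype.card_fin, nsmul_eq_mul]
  push_cast
  ring

private theorem FlA_tp {X : Finset V} {R : V → V → Prop} {j : ℕ} {f : Fin j → V}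
    (hf : f ∈ tp X R j) (i : Fin j) : f i ∈ X := by
  classical
  unfold tp at hf
  rw [mem_filter] at hf
  exact hf.2.1 i

/-- the sum of the squares of the sums of the deviations -/
private theorem FlA_tt {X : Finset V} {R : V → V → Prop} {a p K : ℝ} (ha : 0 < a)
    (hX : (X.card : ℝ) ≤ K * a) (j : ℕ) :
    ∑ f ∈ tp X R (j + 1), (∑ i, tt X R a p (f i)) ^ 2 ≤
      ((j : ℝ) + 1) ^ 2 * ((K * a) ^ j * ∑ x ∈ X, tt X R a p x ^ 2) := by
  have _ := ha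
  have h1 : ∀ f ∈ tp X R (j + 1), (∑ i, tt X R a p (f i)) ^ 2 ≤
      ((j : ℝ) + 1) * ∑ i, tt X R a p (f i) ^ 2 := by
    intro f _
    have h := sq_sum_le_card_mul_sum_sq (s := (univ : Finset (Fin (j + 1))))
      (f := fun i => tt X R a p (f i))
    rw [card_univ, Fintype.card_fin] at h
    push_cast at h
    exact h
  have h2 : ∑ f ∈ tp X R (j + 1), ∑ i, tt X R a p (f i) ^ 2 =
      ((j : ℝ) + 1) * ∑ x ∈ X, Ff X R j x * tt X R a p x ^ 2 := by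
    rw [sum_comm, sum_congr rfl fun i _ => sum_coord j (fun x => tt X R a p x ^ 2) i,
      sum_const, card_univ, Fintype.card_fin, nsmul_eq_mul,
      sum_first X R j (fun x => tt X R a p x ^ 2)]
    push_cast
    ring
  have h3 : ∑ x ∈ X, Ff X R j x * tt X R a p x ^ 2 ≤ (K * a) ^ j * ∑ x ∈ X, tt X R a p x ^ 2 := by
    rw [mul_sum]
    refine sum_le_sum fun x _ => mul_le_mul_of_nonneg_right ?_ (sq_nonneg _)
    exact (Ff_le X R j x).trans (pow_le_pow_left₀ (Nat.cast_nonneg _) hX j)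
  have hj : (0 : ℝ) ≤ (j : ℝ) + 1 := by positivity
  calc ∑ f ∈ tp X R (j + 1), (∑ i, tt X R a p (f i)) ^ 2
      ≤ ∑ f ∈ tp X R (j + 1), ((j : ℝ) + 1) * ∑ i, tt X R a p (f i) ^ 2 := sum_le_sum h1
    _ = ((j : ℝ) + 1) * (((j : ℝ) + 1) * ∑ x ∈ X, Ff X R j x * tt X R a p x ^ 2) := by
        rw [← mul_sum, h2]
    _ ≤ ((j : ℝ) + 1) * (((j : ℝ) + 1) * ((K * a) ^ j * ∑ x ∈ X, tt X R a p x ^ 2)) :=
        mul_le_mul_of_nonneg_left (mul_le_mul_of_nonneg_left h3 hj) hj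
    _ = _ := by ring

/-- the sum of the squares of the overlaps -/
private theorem FlA_ov {X : Finset V} {R : V → V → Prop} (hR : ∀ x y, R x y → R y x) {a K : ℝ}
    (ha : 0 < a) (hK : 1 ≤ K) (hX : (X.card : ℝ) ≤ K * a) (j : ℕ) :
    ∑ f ∈ tp X R (j + 1), ov X R f ^ 2 ≤ ((j : ℝ) + 1) ^ 3 * ((K * a) ^ j * ch X R) := by
  have hc := ch_nonneg X R
  have hKa : 0 ≤ K * a := by positivity
  rcases Nat.eq_zero_or_pos j with rfl | hj
  · have h1 : ∀ f ∈ tp X R (0 + 1), ov X R f ^ 2 = 0 := by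
      intro f hf
      have h2 := ov_nonneg hf
      have h3 := ov_le_pairs hR hf
      have h4 : ∑ i : Fin (0 + 1), ∑ i' ∈ univ.erase i,
          (((nb X R (f i)) ∩ (nb X R (f i'))).card : ℝ) = 0 := by
        refine sum_eq_zero fun i _ => ?_
        have h5 : (univ : Finset (Fin (0 + 1))).erase i = ∅ := by
          rw [eq_empty_iff_forall_notMem]
          intro i' hi'
          exact (ne_of_mem_erase hi') (Fin.ext (by omega))
        rw [h5, sum_empty]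
      rw [h4] at h3
      have h6 : ov X R f = 0 := le_antisymm h3 h2
      rw [h6]
      norm_num
    rw [sum_eq_zero h1]
    positivity
  · have h1 : ∀ f ∈ tp X R (j + 1), ov X R f ^ 2 ≤ (((j : ℝ) + 1) * (X.card : ℝ)) * ov X R f := by
      intro f hf
      have h2 := ov_nonneg hf
      have h3 := ov_le (X := X) (R := R) f
      push_cast at h3
      rw [sq]
      exact mul_le_mul_of_nonneg_right h3 h2
    have h2 := ov_sum hR (X := X) (j + 1)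
    have h3 : j + 1 - 2 = j - 1 := by omega
    rw [h3] at h2
    push_cast at h2
    have h4 : (X.card : ℝ) * (X.card : ℝ) ^ (j - 1) = (X.card : ℝ) ^ j := by
      rw [← pow_succ']
      congr 1
      omega
    have hx : (0 : ℝ) ≤ ((j : ℝ) + 1) * (X.card : ℝ) := by positivity
    calc ∑ f ∈ tp X R (j + 1), ov X R f ^ 2
        ≤ ∑ f ∈ tp X R (j + 1), (((j : ℝ) + 1) * (X.card : ℝ)) * ov X R f := sum_le_sum h1
      _ = (((j : ℝ) + 1) * (X.card : ℝ)) * ∑ f ∈ tp X R (j + 1), ov X R f := by rw [mul_sum]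
      _ ≤ (((j : ℝ) + 1) * (X.card : ℝ)) *
          (((j : ℝ) + 1) ^ 2 * (X.card : ℝ) ^ (j - 1) * ch X R) :=
          mul_le_mul_of_nonneg_left h2 hx
      _ = ((j : ℝ) + 1) ^ 3 * (((X.card : ℝ) * (X.card : ℝ) ^ (j - 1)) * ch X R) := by ring
      _ = ((j : ℝ) + 1) ^ 3 * ((X.card : ℝ) ^ j * ch X R) := by rw [h4]
      _ ≤ _ := by
          refine mul_le_mul_of_nonneg_left (mul_le_mul_of_nonneg_right ?_ hc) (by positivity)
          exact pow_le_pow_left₀ (Nat.cast_nonneg _) hX j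

/-- the second moment of the error of one step -/
theorem step_sq {X : Finset V} {R : V → V → Prop} (hR : ∀ x y, R x y → R y x) {a p K : ℝ}
    (ha : 0 < a) (hK : 1 ≤ K) (hX : (X.card : ℝ) ≤ K * a) (j : ℕ) :
    ∑ x ∈ X, (∑ f ∈ (tp X R (j + 1)).filter (fun f => f 0 = x),
        (∑ i, tt X R a p (f i) - (j : ℝ) * ((X.card : ℝ) - a) + ov X R f)) ^ 2 ≤
      3 * ((j : ℝ) + 1) ^ 3 * K ^ (2 * j + 1) * a ^ (2 * j) * Li X R a p := by
  have hKa : 0 ≤ K * a := by positivity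
  have hP : 0 ≤ (K * a) ^ j := pow_nonneg hKa j
  have hj0 : (0 : ℝ) ≤ j := Nat.cast_nonneg j
  set g : (Fin (j + 1) → V) → ℝ := fun f =>
    ∑ i, tt X R a p (f i) - (j : ℝ) * ((X.card : ℝ) - a) + ov X R f with hg
  have h1 : ∀ x ∈ X, (∑ f ∈ (tp X R (j + 1)).filter (fun f => f 0 = x), g f) ^ 2 ≤
      (K * a) ^ j * ∑ f ∈ (tp X R (j + 1)).filter (fun f => f 0 = x), g f ^ 2 := by
    intro x _
    have h2 := sq_sum_le_card_mul_sum_sq
      (s := (tp X R (j + 1)).filter (fun f => f 0 = x)) (f := g)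
    have h3 : (((tp X R (j + 1)).filter (fun f => f 0 = x)).card : ℝ) ≤ (K * a) ^ j :=
      (Ff_le X R j x).trans (pow_le_pow_left₀ (Nat.cast_nonneg _) hX j)
    exact h2.trans (mul_le_mul_of_nonneg_right h3 (sum_nonneg fun _ _ => sq_nonneg _))
  have h2 : ∑ x ∈ X, ∑ f ∈ (tp X R (j + 1)).filter (fun f => f 0 = x), g f ^ 2 =
      ∑ f ∈ tp X R (j + 1), g f ^ 2 :=
    sum_fiberwise_of_maps_to (fun f hf => FlA_tp hf 0) _
  have h3 : ∀ f ∈ tp X R (j + 1), g f ^ 2 ≤ 3 * ((∑ i, tt X R a p (f i)) ^ 2 +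
      (j : ℝ) ^ 2 * ((X.card : ℝ) - a) ^ 2 + ov X R f ^ 2) := by
    intro f _
    change (∑ i, tt X R a p (f i) - (j : ℝ) * ((X.card : ℝ) - a) + ov X R f) ^ 2 ≤ _
    nlinarith [sq_nonneg (∑ i, tt X R a p (f i) + (j : ℝ) * ((X.card : ℝ) - a)),
      sq_nonneg (∑ i, tt X R a p (f i) - ov X R f),
      sq_nonneg ((j : ℝ) * ((X.card : ℝ) - a) + ov X R f)]
  have h4 := FlA_tt (R := R) (p := p) ha hX j
  have h5 := FlA_ov hR ha hK hX j
  have h6 : ∑ f ∈ tp X R (j + 1), (j : ℝ) ^ 2 * ((X.card : ℝ) - a) ^ 2 ≤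
      (j : ℝ) ^ 2 * ((K * a) ^ j * (K * (a * ((X.card : ℝ) - a) ^ 2))) := by
    rw [sum_const, nsmul_eq_mul]
    have h7 : ((tp X R (j + 1)).card : ℝ) ≤ (K * a) ^ (j + 1) :=
      (tp_card_le X R (j + 1)).trans (pow_le_pow_left₀ (Nat.cast_nonneg _) hX (j + 1))
    refine (mul_le_mul_of_nonneg_right h7 (by positivity)).trans (le_of_eq ?_)
    rw [pow_succ]
    ring
  have h8 : ∑ f ∈ tp X R (j + 1), g f ^ 2 ≤ 3 * (((j : ℝ) + 1) ^ 2 *
      ((K * a) ^ j * ∑ x ∈ X, tt X R a p x ^ 2) + (j : ℝ) ^ 2 * ((K * a) ^ j *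
      (K * (a * ((X.card : ℝ) - a) ^ 2))) + ((j : ℝ) + 1) ^ 3 * ((K * a) ^ j * ch X R)) := by
    refine (sum_le_sum h3).trans ?_
    rw [← mul_sum, sum_add_distrib, sum_add_distrib]
    linarith
  have hS : 0 ≤ ∑ x ∈ X, tt X R a p x ^ 2 := sum_nonneg fun _ _ => sq_nonneg _
  have hN : 0 ≤ a * ((X.card : ℝ) - a) ^ 2 := mul_nonneg ha.le (sq_nonneg _)
  have hC := ch_nonneg X R
  have hJ : (1 : ℝ) ≤ (j : ℝ) + 1 := by linarith
  have e1 : ((j : ℝ) + 1) ^ 2 ≤ ((j : ℝ) + 1) ^ 3 * K := by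
    have h9 : ((j : ℝ) + 1) ^ 2 * 1 ≤ ((j : ℝ) + 1) ^ 2 * (((j : ℝ) + 1) * K) :=
      mul_le_mul_of_nonneg_left (by nlinarith) (by positivity)
    calc ((j : ℝ) + 1) ^ 2 = ((j : ℝ) + 1) ^ 2 * 1 := by ring
      _ ≤ ((j : ℝ) + 1) ^ 2 * (((j : ℝ) + 1) * K) := h9
      _ = _ := by ring
  have e2 : (j : ℝ) ^ 2 ≤ ((j : ℝ) + 1) ^ 3 := by
    have h9 : (j : ℝ) ^ 2 ≤ ((j : ℝ) + 1) ^ 2 := pow_le_pow_left₀ hj0 (by linarith) 2
    exact h9.trans (pow_le_pow_right₀ hJ (by norm_num))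
  have e3 : ((j : ℝ) + 1) ^ 3 ≤ ((j : ℝ) + 1) ^ 3 * K := le_mul_of_one_le_right (by positivity) hK
  have h10 : ∑ f ∈ tp X R (j + 1), g f ^ 2 ≤
      3 * (((j : ℝ) + 1) ^ 3 * K * ((K * a) ^ j * Li X R a p)) := by
    refine h8.trans (mul_le_mul_of_nonneg_left ?_ (by norm_num))
    have f1 : ((j : ℝ) + 1) ^ 2 * ((K * a) ^ j * ∑ x ∈ X, tt X R a p x ^ 2) ≤
        ((j : ℝ) + 1) ^ 3 * K * ((K * a) ^ j * ∑ x ∈ X, tt X R a p x ^ 2) :=
      mul_le_mul_of_nonneg_right e1 (mul_nonneg hP hS)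
    have f2 : (j : ℝ) ^ 2 * ((K * a) ^ j * (K * (a * ((X.card : ℝ) - a) ^ 2))) ≤
        ((j : ℝ) + 1) ^ 3 * ((K * a) ^ j * (K * (a * ((X.card : ℝ) - a) ^ 2))) :=
      mul_le_mul_of_nonneg_right e2 (mul_nonneg hP (mul_nonneg (by linarith) hN))
    have f3 : ((j : ℝ) + 1) ^ 3 * ((K * a) ^ j * ch X R) ≤
        ((j : ℝ) + 1) ^ 3 * K * ((K * a) ^ j * ch X R) :=
      mul_le_mul_of_nonneg_right e3 (mul_nonneg hP hC)
    unfold Li
    calc _ ≤ ((j : ℝ) + 1) ^ 3 * K * ((K * a) ^ j * ∑ x ∈ X, tt X R a p x ^ 2) +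
          ((j : ℝ) + 1) ^ 3 * ((K * a) ^ j * (K * (a * ((X.card : ℝ) - a) ^ 2))) +
          ((j : ℝ) + 1) ^ 3 * K * ((K * a) ^ j * ch X R) := by linarith
      _ = _ := by ring
  calc ∑ x ∈ X, (∑ f ∈ (tp X R (j + 1)).filter (fun f => f 0 = x), g f) ^ 2
      ≤ ∑ x ∈ X, (K * a) ^ j * ∑ f ∈ (tp X R (j + 1)).filter (fun f => f 0 = x), g f ^ 2 :=
        sum_le_sum h1
    _ = (K * a) ^ j * ∑ f ∈ tp X R (j + 1), g f ^ 2 := by rw [← mul_sum, h2]
    _ ≤ (K * a) ^ j * (3 * (((j : ℝ) + 1) ^ 3 * K * ((K * a) ^ j * Li X R a p))) :=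
        mul_le_mul_of_nonneg_left h10 hP
    _ = 3 * ((j : ℝ) + 1) ^ 3 * K ^ (2 * j + 1) * a ^ (2 * j) * Li X R a p := by
        rw [mul_pow, pow_succ K (2 * j), pow_mul' K 2 j, pow_mul' a 2 j]
        ring

end Pool.Agent.DCL
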