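import Pool.Agent.DCL.TwoL
import Pool.Agent.DCL.FlA
import Pool.Agent.DCS.Typ

/-!
# DCL-ChrA: the hypotheses of the graph lemma for the family of all pairs `(J, w)`

`a = δ n`, `p = 1 - δ`, the graph of `(J, w)` on `ext H J` is `Rl H J w`. All the errors are at most `l` times the
trivial size, `l = 3100 / (δ⁷ (1 - δ)²) (e + 1 / m)`.

Plan. `pts_one`: the sum is `(s+1) N1 (Av (s+1) - δ n)`, `Lev.av1`. `pts_sq`: `(s+1) (Sq (s+1) + N1 (Av - δ n)²)`,
`Lev.sq1`, `Lev.av1`, `(3 e + 1/m)² ≤ 18 (e + 1/m)` (`e + 1/m ≤ 2`): at most `20 l0 n² (s+1) N1`, `l0 = e + 1/m`; `0 < δ < 1`.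
-/

open Finset Pool.Agent.Helper2.DC

namespace Pool.Agent.DCL

open Pool.Agent.DCS

variable {V : Type} [Fintype V] [DecidableEq V]

/-- the pairs `(J, w)` -/
def pr (H : Finset (Finset V)) (s : ℕ) : Finset (Finset V × V) :=
  (ind H (s + 1)).biUnion fun J => J.image fun w => (J, w)

theorem sum_pr (H : Finset (Finset V)) (s : ℕ) (g : Finset V → V → ℝ) :
    ∑ o ∈ pr H s, g o.1 o.2 = ∑ J ∈ ind H (s + 1), ∑ w ∈ J, g J w := by
  sorry

theorem card_pr (H : Finset (Finset V)) (s : ℕ) :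
    ((pr H s).card : ℝ) = ((s : ℝ) + 1) * NI H (s + 1) := by
  sorry

/-- the error -/
noncomputable def el (δ e m : ℝ) : ℝ := 3100 / (δ ^ 7 * (1 - δ) ^ 2) * (e + 1 / m)

/-- the number of the points, first moment -/
theorem pts_one {H : Finset (Finset V)} {k s : ℕ} {e : ℝ} (h : Lev V H k s e) (he1 : e ≤ 1)
    {δ : ℝ} (hδ : δ = (k : ℝ) / ((s : ℝ) + 3)) :
    |∑ o ∈ pr H s, (((ext H o.1).card : ℝ) - δ * (Fintype.card V : ℝ))| ≤
      el δ e ((s : ℝ) + 3) * (pr H s).card * (δ * (Fintype.card V : ℝ)) := by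
  sorry

/-- the number of the points, second moment -/
theorem pts_sq {H : Finset (Finset V)} {k s : ℕ} {e : ℝ} (h : Lev V H k s e) (he1 : e ≤ 1)
    {δ : ℝ} (hδ : δ = (k : ℝ) / ((s : ℝ) + 3)) :
    ∑ o ∈ pr H s, (((ext H o.1).card : ℝ) - δ * (Fintype.card V : ℝ)) ^ 2 ≤
      el δ e ((s : ℝ) + 3) * (pr H s).card * (δ * (Fintype.card V : ℝ)) ^ 2 := by
  sorry

end Pool.Agent.DCL
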