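import Pool.Agent.DCL.ChrA

/-!
# DCL-ChrB: the degrees

Plan. `deg_sum`: `DCS.nn_eq` and `sum_ext` as in `DCS.Dv_sum` (`DCS/Typ.lean`). `tt X R (δ n) (1 - δ) x = |nn x| - δ² n`.
`deg_one`: `t_sum_le`, `t_sum_ge`; `deg_sq`: `t_sq`; `(s+2) N (s+2) ≤ n N (s+1)` (`DCS.level_up` in `DCS/Chr.lean`, or `sum_ext`),
so `L = (s+2) (s+1) N (s+2) ≤ n |pr|`, `n = (δ n) / δ`.
-/

set_option linter.unusedSectionVars false

open Finset Pool.Agent.Helper2.DC

namespace Pool.Agent.DCL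

open Pool.Agent.DCS

variable {V : Type} [Fintype V] [DecidableEq V]

/-- the degrees in terms of the exchange sets: a sum over the triples `(S, w, w')` -/
theorem deg_sum {H : Finset (Finset V)} {s : ℕ} (g : ℝ → ℝ) :
    ∑ o ∈ pr H s, ∑ x ∈ ext H o.1, g ((nn (ext H o.1) (Rl H o.1 o.2) x).card : ℝ) =
      ∑ S ∈ ind H (s + 2), ∑ w ∈ S, ∑ w' ∈ S.erase w, g ((Bw H S w ∩ Bw H S w').card : ℝ) := by
  rw [sum_pr H s (fun J w => ∑ x ∈ ext H J, g ((nn (ext H J) (Rl H J w) x).card : ℝ))]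
  have h1 := sum_ext H (s + 1) (fun J x => ∑ w ∈ J,
    g ((Bw H (insert x J) x ∩ Bw H (insert x J) w).card : ℝ))
  have h2 : ∑ J ∈ ind H (s + 1), ∑ w ∈ J, ∑ x ∈ ext H J,
        g ((nn (ext H J) (Rl H J w) x).card : ℝ) =
      ∑ J ∈ ind H (s + 1), ∑ x ∈ ext H J, ∑ w ∈ J,
        g ((Bw H (insert x J) x ∩ Bw H (insert x J) w).card : ℝ) := by
    refine sum_congr rfl fun J _ => ?_
    rw [sum_comm]
    refine sum_congr rfl fun x hx => sum_congr rfl fun w hw => ?_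
    rw [nn_eq hw hx]
  rw [h2, h1]
  refine sum_congr rfl fun S _ => sum_congr rfl fun a ha => sum_congr rfl fun w' _ => ?_
  rw [insert_erase ha]

private theorem chrb_up {H : Finset (Finset V)} {s : ℕ} (hN : 0 < NI H (s + 1)) :
    ((s : ℝ) + 2) * NI H (s + 2) ≤ (Fintype.card V : ℝ) * NI H (s + 1) := by
  have h1 := Av_mul hN
  have h2 : Av H (s + 1) ≤ (Fintype.card V : ℝ) := by
    unfold Av
    rw [div_le_iff₀ hN]
    calc ∑ S ∈ ind H (s + 1), ((ext H S).card : ℝ) ≤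
          ∑ _S ∈ ind H (s + 1), (Fintype.card V : ℝ) := sum_le_sum fun S _ => ext_card_le H S
      _ = (Fintype.card V : ℝ) * NI H (s + 1) := by
          rw [sum_const, nsmul_eq_mul]
          unfold NI
          ring
  have h4 := mul_le_mul_of_nonneg_right h2 hN.le
  rw [h1] at h4
  push_cast at h4
  have e : (s : ℝ) + 1 + 1 = (s : ℝ) + 2 := by ring
  rw [e] at h4
  exact h4

private theorem chrb_level {H : Finset (Finset V)} {k s : ℕ} {e : ℝ} (h : Lev V H k s e) :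
    ((s : ℝ) + 2) * ((s : ℝ) + 1) * NI H (s + 2) ≤ (Fintype.card V : ℝ) * (pr H s).card := by
  rw [card_pr]
  have h1 := mul_le_mul_of_nonneg_left (chrb_up h.N1) (show (0 : ℝ) ≤ (s : ℝ) + 1 by positivity)
  calc ((s : ℝ) + 2) * ((s : ℝ) + 1) * NI H (s + 2)
      = ((s : ℝ) + 1) * (((s : ℝ) + 2) * NI H (s + 2)) := by ring
    _ ≤ ((s : ℝ) + 1) * ((Fintype.card V : ℝ) * NI H (s + 1)) := h1
    _ = (Fintype.card V : ℝ) * (((s : ℝ) + 1) * NI H (s + 1)) := by ring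

private theorem chrb_delta {H : Finset (Finset V)} {k s : ℕ} {e : ℝ} (h : Lev V H k s e) :
    0 < (k : ℝ) / ((s : ℝ) + 3) ∧ (k : ℝ) / ((s : ℝ) + 3) < 1 := by
  have hk : 0 < (k : ℝ) := by
    have := h.hk
    exact_mod_cast (by omega : 0 < k)
  have hks : (k : ℝ) < (s : ℝ) + 3 := by
    have := h.hks
    exact_mod_cast (by omega : k < s + 3)
  exact ⟨by positivity, (div_lt_one (by positivity)).2 hks⟩

private theorem chrb_tt (X : Finset V) (R : V → V → Prop) (δ n : ℝ) (x : V) :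
    tt X R (δ * n) (1 - δ) x = ((nn X R x).card : ℝ) - δ ^ 2 * n := by
  unfold tt
  ring

/-- the degrees, first moment -/
theorem deg_one {H : Finset (Finset V)} {k s : ℕ} {e : ℝ} (h : Lev V H k s e) (he1 : e ≤ 1)
    {δ : ℝ} (hδ : δ = (k : ℝ) / ((s : ℝ) + 3)) :
    |∑ o ∈ pr H s, ∑ x ∈ ext H o.1, tt (ext H o.1) (Rl H o.1 o.2)
        (δ * (Fintype.card V : ℝ)) (1 - δ) x| ≤
      el δ e ((s : ℝ) + 3) * (pr H s).card * (δ * (Fintype.card V : ℝ)) ^ 2 := by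
  obtain ⟨hd0, hd1⟩ := chrb_delta h
  have hlev := chrb_level h
  have hge := t_sum_ge h he1
  have hle : ∑ S ∈ ind H (s + 2), ∑ w ∈ S, ∑ w' ∈ S.erase w,
      (((Bw H S w ∩ Bw H S w').card : ℝ) -
        ((k : ℝ) / ((s : ℝ) + 3)) ^ 2 * (Fintype.card V : ℝ)) ≤ 0 :=
    sum_nonpos fun S hS => t_sum_le h hS
  rw [← hδ] at hge hle hd0 hd1
  have hsum := deg_sum (H := H) (s := s) (fun t => t - δ ^ 2 * (Fintype.card V : ℝ))
  simp only [← chrb_tt] at hsum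
  rw [hsum]
  set n : ℝ := (Fintype.card V : ℝ) with hn
  set q : ℝ := ((pr H s).card : ℝ) with hq
  set L : ℝ := ((s : ℝ) + 2) * ((s : ℝ) + 1) * NI H (s + 2) with hL
  set l : ℝ := e + 1 / ((s : ℝ) + 3) with hl
  have hn0 : 0 ≤ n := Nat.cast_nonneg _
  have hq0 : 0 ≤ q := Nat.cast_nonneg _
  have hl0 : 0 ≤ l := by
    have := h.he
    positivity
  have hkey : 19 / δ ^ 2 * l * n * L ≤ el δ e ((s : ℝ) + 3) * q * (δ * n) ^ 2 := by
    have h1 : 19 / δ ^ 2 * l * n * L ≤ 19 / δ ^ 2 * l * n * (n * q) :=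
      mul_le_mul_of_nonneg_left hlev (by positivity)
    refine h1.trans ?_
    have h2 : el δ e ((s : ℝ) + 3) * q * (δ * n) ^ 2 =
        3100 / (δ ^ 5 * (1 - δ) ^ 2) * (l * n ^ 2 * q) := by
      unfold el
      rw [← hl]
      have h3 : 0 < 1 - δ := by linarith
      field_simp
    have h3 : 19 / δ ^ 2 * l * n * (n * q) = 19 / δ ^ 2 * (l * n ^ 2 * q) := by ring
    rw [h2, h3]
    apply mul_le_mul_of_nonneg_right _ (by positivity)
    have h4 : 0 < 1 - δ := by linarith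
    rw [div_le_div_iff₀ (by positivity) (by positivity)]
    have h5 : δ ^ 5 * (1 - δ) ^ 2 ≤ δ ^ 2 := by
      have h6 : δ ^ 5 ≤ δ ^ 2 := pow_le_pow_of_le_one hd0.le hd1.le (by norm_num)
      have h7 : (1 - δ) ^ 2 ≤ 1 := by nlinarith
      calc δ ^ 5 * (1 - δ) ^ 2 ≤ δ ^ 2 * 1 := mul_le_mul h6 h7 (by positivity) (by positivity)
        _ = δ ^ 2 := mul_one _
    have h8 : 0 ≤ δ ^ 2 := by positivity
    linarith
  rw [abs_le]
  constructor
  · linarith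
  · have h0 : 0 ≤ 19 / δ ^ 2 * l * n * L := by
      have hN := NI_nonneg H (s + 2)
      positivity
    linarith

/-- the degrees, second moment -/
theorem deg_sq {H : Finset (Finset V)} {k s : ℕ} {e : ℝ} (h : Lev V H k s e) (he1 : e ≤ 1)
    {δ : ℝ} (hδ : δ = (k : ℝ) / ((s : ℝ) + 3)) :
    ∑ o ∈ pr H s, ∑ x ∈ ext H o.1, tt (ext H o.1) (Rl H o.1 o.2)
        (δ * (Fintype.card V : ℝ)) (1 - δ) x ^ 2 ≤
      el δ e ((s : ℝ) + 3) * (pr H s).card * (δ * (Fintype.card V : ℝ)) ^ 3 := by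
  obtain ⟨hd0, hd1⟩ := chrb_delta h
  have hlev := chrb_level h
  have hle := t_sq h he1
  rw [← hδ] at hle hd0 hd1
  have hsum := deg_sum (H := H) (s := s) (fun t => (t - δ ^ 2 * (Fintype.card V : ℝ)) ^ 2)
  simp only [← chrb_tt] at hsum
  rw [hsum]
  refine hle.trans ?_
  set n : ℝ := (Fintype.card V : ℝ) with hn
  set q : ℝ := ((pr H s).card : ℝ) with hq
  set L : ℝ := ((s : ℝ) + 2) * ((s : ℝ) + 1) * NI H (s + 2) with hL
  set l : ℝ := e + 1 / ((s : ℝ) + 3) with hl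
  have hn0 : 0 ≤ n := Nat.cast_nonneg _
  have hq0 : 0 ≤ q := Nat.cast_nonneg _
  have hl0 : 0 ≤ l := by
    have := h.he
    positivity
  have h1 : 1500 / δ ^ 2 * l * n ^ 2 * L ≤ 1500 / δ ^ 2 * l * n ^ 2 * (n * q) :=
    mul_le_mul_of_nonneg_left hlev (by positivity)
  refine h1.trans ?_
  have h4 : 0 < 1 - δ := by linarith
  have h2 : el δ e ((s : ℝ) + 3) * q * (δ * n) ^ 3 =
      3100 / (δ ^ 4 * (1 - δ) ^ 2) * (l * n ^ 3 * q) := by
    unfold el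
    rw [← hl]
    field_simp
  have h3 : 1500 / δ ^ 2 * l * n ^ 2 * (n * q) = 1500 / δ ^ 2 * (l * n ^ 3 * q) := by ring
  rw [h2, h3]
  apply mul_le_mul_of_nonneg_right _ (by positivity)
  rw [div_le_div_iff₀ (by positivity) (by positivity)]
  have h5 : δ ^ 4 * (1 - δ) ^ 2 ≤ δ ^ 2 := by
    have h6 : δ ^ 4 ≤ δ ^ 2 := pow_le_pow_of_le_one hd0.le hd1.le (by norm_num)
    have h7 : (1 - δ) ^ 2 ≤ 1 := by nlinarith
    calc δ ^ 4 * (1 - δ) ^ 2 ≤ δ ^ 2 * 1 := mul_le_mul h6 h7 (by positivity) (by positivity)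
      _ = δ ^ 2 := mul_one _
  have h8 : 0 ≤ δ ^ 2 := by positivity
  linarith

end Pool.Agent.DCL
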