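import Pool.Agent.DCL.TwoL
import Pool.Agent.DCS.Kxy

/-!
# DCL-KxyL: the second moment of `|kap x ∩ kap y| - δ k`, linear in the loss

Plan. `kxy_pt`: copy the proofs of `DCS.kxy_point` and `DCS.kxy_point'` (`DCS/Kxy.lean`); the only change:
`∑_{w ≠ w'} |Bw w ∩ Bw w'|² = ∑ (φ² + 2 φ t + t²) ≤ (s+2) (s+1) φ² + ∑ t²` because `∑ t ≤ 0` (`t_sum_le`).
`kxy_sq2`: sum over `S`; `t_sq`, `Lev.df`, `Lev.hn` (`s + 3 ≤ e n`): with `l = e + 1 / (s+3)`,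
`(7 / (s+3) + 18 e + 1500 / δ² l) ≤ 1520 / δ² l`.
-/

open Finset Pool.Agent.Helper2.DC

namespace Pool.Agent.DCL

open Pool.Agent.DCS

variable {V : Type} [Fintype V] [DecidableEq V]

/-- the second moment of `|kap x ∩ kap y| - t`, one set `S`, when the mean of the intersections is at most `φ` -/
private theorem KxyL_point {H : Finset (Finset V)} {k s : ℕ} {S : Finset V}
    (hS : S ∈ ind H (s + 2)) (hE : ext H S = ∅) {t φ : ℝ} (ht : 0 ≤ t) (hφ : 0 ≤ φ)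
    (hT0 : ∑ w ∈ S, ∑ w' ∈ S.erase w, (((Bw H S w ∩ Bw H S w').card : ℝ) - φ) ≤ 0) :
    ∑ x ∈ Sᶜ, ∑ y ∈ Sᶜ, (((kap H S x ∩ kap H S y).card : ℝ) - t) ^ 2 ≤
      ((s : ℝ) + 2) * (Fintype.card V : ℝ) ^ 2 + ((s : ℝ) + 2) * ((s : ℝ) + 1) * φ ^ 2 +
      ∑ w ∈ S, ∑ w' ∈ S.erase w, (((Bw H S w ∩ Bw H S w').card : ℝ) - φ) ^ 2 -
      2 * t * (((Fintype.card V : ℝ) * k) ^ 2 - 2 * ((Fintype.card V : ℝ) * k) *
        ((Fintype.card V : ℝ) + ((s : ℝ) + 2) * ((k : ℝ) - 1) +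
          ∑ v ∈ bl H S, ((k : ℝ) - 1 - ((kap H S v).card : ℝ)))) / ((s : ℝ) + 2) +
      t ^ 2 * (Fintype.card V : ℝ) ^ 2 := by
  obtain ⟨hSc, hSI⟩ := mem_ind.1 hS
  have hScR : (S.card : ℝ) = (s : ℝ) + 2 := by
    rw [hSc]
    push_cast
    ring
  have hs2 : (0 : ℝ) < (s : ℝ) + 2 := by positivity
  have hn : (0 : ℝ) ≤ (Fintype.card V : ℝ) := Nat.cast_nonneg _
  have hcard : ∀ w ∈ S, ((S.erase w).card : ℝ) = (s : ℝ) + 1 := by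
    intro w hw
    have h := card_erase_add_one hw
    rw [hSc] at h
    have h' : (S.erase w).card = s + 1 := by omega
    rw [h']
    push_cast
    ring
  -- expansion
  have e1 : ∑ x ∈ Sᶜ, ∑ y ∈ Sᶜ, (((kap H S x ∩ kap H S y).card : ℝ) - t) ^ 2 =
      ∑ w ∈ S, ∑ w' ∈ S, ((Bw H S w ∩ Bw H S w').card : ℝ) ^ 2 -
        2 * t * ∑ w ∈ S, ((Bw H S w).card : ℝ) ^ 2 + t ^ 2 * ((Sᶜ.card : ℝ) ^ 2) := by
    rw [← kxy_sq, ← kxy_fst, mul_sum]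
    have e0 : t ^ 2 * ((Sᶜ.card : ℝ) ^ 2) = ∑ _x ∈ Sᶜ, ∑ _y ∈ Sᶜ, t ^ 2 := by
      simp only [sum_const, nsmul_eq_mul]
      ring
    rw [e0, ← sum_sub_distrib, ← sum_add_distrib]
    refine sum_congr rfl fun x _ => ?_
    rw [mul_sum, ← sum_sub_distrib, ← sum_add_distrib]
    exact sum_congr rfl fun y _ => by ring
  -- the diagonal and the rest
  have hBn : ∀ A : Finset V, (A.card : ℝ) ≤ (Fintype.card V : ℝ) := fun A => by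
    exact_mod_cast card_le_univ A
  have h2 : ∀ w ∈ S, ∑ w' ∈ S, ((Bw H S w ∩ Bw H S w').card : ℝ) ^ 2 ≤
      (Fintype.card V : ℝ) ^ 2 + (((s : ℝ) + 1) * φ ^ 2 +
        (2 * φ * ∑ w' ∈ S.erase w, (((Bw H S w ∩ Bw H S w').card : ℝ) - φ) +
        ∑ w' ∈ S.erase w, (((Bw H S w ∩ Bw H S w').card : ℝ) - φ) ^ 2)) := by
    intro w hw
    rw [← add_sum_erase S _ hw]
    have h3 : ((Bw H S w ∩ Bw H S w).card : ℝ) ^ 2 ≤ (Fintype.card V : ℝ) ^ 2 :=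
      pow_le_pow_left₀ (Nat.cast_nonneg _) (hBn _) 2
    have h4 : ∑ w' ∈ S.erase w, ((Bw H S w ∩ Bw H S w').card : ℝ) ^ 2 =
        ∑ w' ∈ S.erase w, (φ ^ 2 + (2 * φ * (((Bw H S w ∩ Bw H S w').card : ℝ) - φ) +
          (((Bw H S w ∩ Bw H S w').card : ℝ) - φ) ^ 2)) :=
      sum_congr rfl fun w' _ => by ring
    rw [sum_add_distrib, sum_const, nsmul_eq_mul, hcard w hw, sum_add_distrib, ← mul_sum] at h4
    linarith
  have h3 := sum_le_sum h2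
  have e3 : ∑ w ∈ S, ((Fintype.card V : ℝ) ^ 2 + (((s : ℝ) + 1) * φ ^ 2 +
        (2 * φ * ∑ w' ∈ S.erase w, (((Bw H S w ∩ Bw H S w').card : ℝ) - φ) +
        ∑ w' ∈ S.erase w, (((Bw H S w ∩ Bw H S w').card : ℝ) - φ) ^ 2))) =
      ((s : ℝ) + 2) * (Fintype.card V : ℝ) ^ 2 + (((s : ℝ) + 2) * ((s : ℝ) + 1) * φ ^ 2 +
        (2 * φ * ∑ w ∈ S, ∑ w' ∈ S.erase w, (((Bw H S w ∩ Bw H S w').card : ℝ) - φ) +
        ∑ w ∈ S, ∑ w' ∈ S.erase w, (((Bw H S w ∩ Bw H S w').card : ℝ) - φ) ^ 2)) := by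
    rw [sum_add_distrib, sum_add_distrib, sum_add_distrib, sum_const, nsmul_eq_mul, sum_const,
      nsmul_eq_mul, hScR, ← mul_sum]
    ring
  rw [e3] at h3
  have h3' : 2 * φ * ∑ w ∈ S, ∑ w' ∈ S.erase w, (((Bw H S w ∩ Bw H S w').card : ℝ) - φ) ≤ 0 :=
    mul_nonpos_of_nonneg_of_nonpos (by positivity) hT0
  -- the first moment from below
  have hT := kxy_def k hE
  rw [hScR] at hT
  have h4 := sq_sum_le_card_mul_sum_sq (s := S) (f := fun w => ((Bw H S w).card : ℝ))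
  rw [hT, hScR] at h4
  set d : ℝ := ∑ v ∈ bl H S, ((k : ℝ) - 1 - ((kap H S v).card : ℝ)) with hd
  set n : ℝ := (Fintype.card V : ℝ) with hn'
  set B : ℝ := ∑ w ∈ S, ((Bw H S w).card : ℝ) ^ 2 with hB
  have h5 : (n * k) ^ 2 - 2 * (n * k) * (n + ((s : ℝ) + 2) * ((k : ℝ) - 1) + d) ≤
      ((s : ℝ) + 2) * B := by
    refine le_trans ?_ h4
    have h6 := sq_nonneg (n + ((s : ℝ) + 2) * ((k : ℝ) - 1) + d)
    nlinarith
  have h6 : 2 * t * ((n * k) ^ 2 - 2 * (n * k) * (n + ((s : ℝ) + 2) * ((k : ℝ) - 1) + d)) /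
      ((s : ℝ) + 2) ≤ 2 * t * B := by
    rw [div_le_iff₀ hs2]
    have := mul_le_mul_of_nonneg_left h5 (show (0 : ℝ) ≤ 2 * t by positivity)
    linarith
  have h7 : (Sᶜ.card : ℝ) ^ 2 ≤ n ^ 2 := pow_le_pow_left₀ (Nat.cast_nonneg _) (hBn _) 2
  have h8 := mul_le_mul_of_nonneg_left h7 (sq_nonneg t)
  rw [e1]
  linarith

/-- one set `S` -/
theorem kxy_pt {H : Finset (Finset V)} {k s : ℕ} {e : ℝ} (h : Lev V H k s e) {S : Finset V}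
    (hS : S ∈ ind H (s + 2)) {δ : ℝ} (hδ : δ = (k : ℝ) / ((s : ℝ) + 3)) :
    ∑ x ∈ Sᶜ, ∑ y ∈ Sᶜ, (((kap H S x ∩ kap H S y).card : ℝ) - δ * k) ^ 2 ≤
      ((s : ℝ) + 3) * (Fintype.card V : ℝ) ^ 2 +
      ∑ w ∈ S, ∑ w' ∈ S.erase w,
        (((Bw H S w ∩ Bw H S w').card : ℝ) - δ ^ 2 * (Fintype.card V : ℝ)) ^ 2 +
      6 * ((s : ℝ) + 3) * (Fintype.card V : ℝ) * ((Fintype.card V : ℝ) + ((s : ℝ) + 3) ^ 2 +
        ∑ v ∈ bl H S, ((k : ℝ) - 1 - ((kap H S v).card : ℝ))) := by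
  have hE : ext H S = ∅ := ext_empty h.N3 hS
  have hk2 : (8 : ℝ) ≤ k := by exact_mod_cast h.hk
  have hks2 : (k : ℝ) ≤ (s : ℝ) + 1 := by exact_mod_cast h.hks
  have hs : (0 : ℝ) ≤ s := Nat.cast_nonneg _
  have hδ0 : 0 < δ := by rw [hδ]; positivity
  have hδ1 : δ ≤ 1 := by rw [hδ, div_le_one (by linarith)]; linarith
  have hn : (0 : ℝ) ≤ (Fintype.card V : ℝ) := Nat.cast_nonneg _
  have hkM : (k : ℝ) = δ * ((s : ℝ) + 3) := by rw [hδ]; field_simp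
  have hd : 0 ≤ ∑ v ∈ bl H S, ((k : ℝ) - 1 - ((kap H S v).card : ℝ)) := by
    refine sum_nonneg fun v hv => ?_
    have h := kap_card_le h.hH (mem_ind.1 hS).2 hv
    have h' : ((kap H S v).card : ℝ) + 1 ≤ k := by exact_mod_cast h
    linarith
  have hT0 := t_sum_le h hS
  rw [← hδ] at hT0
  have h1 := KxyL_point (k := k) hS hE (t := δ * k) (φ := δ ^ 2 * (Fintype.card V : ℝ))
    (by positivity) (by positivity) hT0
  have h2 := kxy_arith (M := (s : ℝ) + 3) (δ := δ) (n := (Fintype.card V : ℝ))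
    (E := 0)
    (d := ∑ v ∈ bl H S, ((k : ℝ) - 1 - ((kap H S v).card : ℝ))) (k := (k : ℝ))
    (by linarith) hδ1 hn hkM (by linarith) hd
  have e1 : (s : ℝ) + 3 - 1 = (s : ℝ) + 2 := by ring
  have e2 : (s : ℝ) + 3 - 2 = (s : ℝ) + 1 := by ring
  rw [e1, e2] at h2
  linarith

private theorem KxyL_arith {M n N e δ T D A : ℝ} (hM : 0 < M) (hn : 0 ≤ n) (hN : 0 ≤ N)
    (he : 0 ≤ e) (hδ0 : 0 < δ) (hδ1 : δ ≤ 1) (hMn : M ≤ e * n) (hA : A ≤ M * M)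
    (hT : T ≤ 1500 / δ ^ 2 * (e + 1 / M) * n ^ 2 * (A * N))
    (hD : D ≤ 2 * e * n * (M * N)) :
    N * (M * n ^ 2) + T + 6 * M * n * (N * (n + M ^ 2) + D) ≤
      1520 / δ ^ 2 * (e + 1 / M) * (M ^ 2 * n ^ 2 * N) := by
  have hl : 0 ≤ e + 1 / M := by positivity
  have hX : 0 ≤ M ^ 2 * n ^ 2 * N := by positivity
  have h1 : 1500 / δ ^ 2 * (e + 1 / M) * n ^ 2 * (A * N) ≤
      1500 / δ ^ 2 * (e + 1 / M) * (M ^ 2 * n ^ 2 * N) := by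
    have h2 : 1500 / δ ^ 2 * (e + 1 / M) * n ^ 2 * (A * N) ≤
        1500 / δ ^ 2 * (e + 1 / M) * n ^ 2 * (M * M * N) := by gcongr
    refine h2.trans (le_of_eq ?_)
    ring
  have h3 : 6 * M * n * D ≤ 6 * M * n * (2 * e * n * (M * N)) :=
    mul_le_mul_of_nonneg_left hD (by positivity)
  have h4 : 6 * M * n * (N * M ^ 2) ≤ 6 * e * (M ^ 2 * n ^ 2 * N) := by
    have h5 : (6 * n * (N * M ^ 2)) * M ≤ (6 * n * (N * M ^ 2)) * (e * n) :=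
      mul_le_mul_of_nonneg_left hMn (by positivity)
    have e1 : 6 * M * n * (N * M ^ 2) = (6 * n * (N * M ^ 2)) * M := by ring
    have e2 : 6 * e * (M ^ 2 * n ^ 2 * N) = (6 * n * (N * M ^ 2)) * (e * n) := by ring
    rw [e1, e2]
    exact h5
  have h5 : N * (M * n ^ 2) = 1 / M * (M ^ 2 * n ^ 2 * N) := by
    field_simp
  have h6 : 20 * (e + 1 / M) * (M ^ 2 * n ^ 2 * N) ≤
      20 / δ ^ 2 * (e + 1 / M) * (M ^ 2 * n ^ 2 * N) := by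
    have h7 : (20 : ℝ) ≤ 20 / δ ^ 2 := by
      rw [le_div_iff₀ (by positivity)]
      have : δ ^ 2 ≤ 1 := pow_le_one₀ hδ0.le hδ1
      linarith
    gcongr
  have h7 : 1520 / δ ^ 2 * (e + 1 / M) * (M ^ 2 * n ^ 2 * N) =
      1500 / δ ^ 2 * (e + 1 / M) * (M ^ 2 * n ^ 2 * N) +
      20 / δ ^ 2 * (e + 1 / M) * (M ^ 2 * n ^ 2 * N) := by ring
  have h8 : 6 * M * n * (N * (n + M ^ 2) + D) =
      6 * (N * (M * n ^ 2)) + 6 * M * n * (N * M ^ 2) + 6 * M * n * D := by ring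
  have h9 : 6 * M * n * (2 * e * n * (M * N)) = 12 * e * (M ^ 2 * n ^ 2 * N) := by ring
  have h10 : 0 ≤ 1 / M * (M ^ 2 * n ^ 2 * N) := by positivity
  have h11 : 0 ≤ e * (M ^ 2 * n ^ 2 * N) := by positivity
  have h12 : 20 * (e + 1 / M) * (M ^ 2 * n ^ 2 * N) =
      20 * (e * (M ^ 2 * n ^ 2 * N)) + 20 * (1 / M * (M ^ 2 * n ^ 2 * N)) := by ring
  rw [h7, h8]
  linarith

/-- all the sets together -/
theorem kxy_sq2 {H : Finset (Finset V)} {k s : ℕ} {e : ℝ} (h : Lev V H k s e) (he1 : e ≤ 1) :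
    ∑ S ∈ ind H (s + 2), ∑ x ∈ Sᶜ, ∑ y ∈ Sᶜ,
        (((kap H S x ∩ kap H S y).card : ℝ) - (k : ℝ) / ((s : ℝ) + 3) * k) ^ 2 ≤
      1520 / ((k : ℝ) / ((s : ℝ) + 3)) ^ 2 * (e + 1 / ((s : ℝ) + 3)) *
        (((s : ℝ) + 3) ^ 2 * (Fintype.card V : ℝ) ^ 2 * NI H (s + 2)) := by
  have hk2 : (8 : ℝ) ≤ k := by exact_mod_cast h.hk
  have hks2 : (k : ℝ) ≤ (s : ℝ) + 1 := by exact_mod_cast h.hks
  have hs : (0 : ℝ) ≤ s := Nat.cast_nonneg _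
  obtain ⟨δ, hδ⟩ : ∃ δ : ℝ, δ = (k : ℝ) / ((s : ℝ) + 3) := ⟨_, rfl⟩
  have hδ0 : 0 < δ := by rw [hδ]; positivity
  have hδ1 : δ ≤ 1 := by rw [hδ, div_le_one (by linarith)]; linarith
  have hn : (0 : ℝ) ≤ (Fintype.card V : ℝ) := Nat.cast_nonneg _
  have hN := NI_nonneg H (s + 2)
  rw [← hδ]
  have h1 := sum_le_sum fun S (hS : S ∈ ind H (s + 2)) => kxy_pt h hS hδ
  refine h1.trans ?_
  have e1 : ∑ S ∈ ind H (s + 2), (((s : ℝ) + 3) * (Fintype.card V : ℝ) ^ 2 +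
      ∑ w ∈ S, ∑ w' ∈ S.erase w,
        (((Bw H S w ∩ Bw H S w').card : ℝ) - δ ^ 2 * (Fintype.card V : ℝ)) ^ 2 +
      6 * ((s : ℝ) + 3) * (Fintype.card V : ℝ) * ((Fintype.card V : ℝ) + ((s : ℝ) + 3) ^ 2 +
        ∑ v ∈ bl H S, ((k : ℝ) - 1 - ((kap H S v).card : ℝ)))) =
      NI H (s + 2) * (((s : ℝ) + 3) * (Fintype.card V : ℝ) ^ 2) +
      ∑ S ∈ ind H (s + 2), ∑ w ∈ S, ∑ w' ∈ S.erase w,
        (((Bw H S w ∩ Bw H S w').card : ℝ) - δ ^ 2 * (Fintype.card V : ℝ)) ^ 2 +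
      6 * ((s : ℝ) + 3) * (Fintype.card V : ℝ) *
        (NI H (s + 2) * ((Fintype.card V : ℝ) + ((s : ℝ) + 3) ^ 2) + Df H k (s + 2)) := by
    rw [sum_add_distrib, sum_add_distrib, sum_const, nsmul_eq_mul, ← mul_sum,
      sum_add_distrib, sum_const, nsmul_eq_mul]
    rfl
  rw [e1]
  have h2 := t_sq h he1
  rw [← hδ] at h2
  have h3 := h.df
  refine KxyL_arith (A := ((s : ℝ) + 2) * ((s : ℝ) + 1)) (by positivity) hn hN h.he.le hδ0 hδ1 h.hn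
    (by nlinarith) h2 (h3.trans ?_)
  have he := h.he.le
  gcongr
  norm_num

end Pool.Agent.DCL
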