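import Pool.Agent.DCL.ChrA
import Pool.Agent.DCL.KxyL
import Pool.Agent.DCL.BcnL

/-!
# DCL-ChrC: the cherries

Plan. `ch (ext H J) (Rl H J w) = Ch H J w` (by `rfl`). `bad_count_sq` with `t = δ k`, `a = (1 - δ) k`, `kxy_sq2`, `Lev.df`,
`k = δ (s+3)`: `∑ Ch ≤ (12 e / ((1-δ) δ) + 1520 l0 / (δ⁴ (1-δ)²)) (s+2)² n² N2`, `l0 = e + 1 / (s+3)`, and
`(s+2) N2 ≤ n N1`, `s + 2 ≤ 2 (s + 1)`: `∑ Ch ≤ 3064 l0 / (δ⁴ (1-δ)²) (s+1) N1 n³`.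
-/

set_option linter.unusedSectionVars false

open Finset Pool.Agent.Helper2.DC

namespace Pool.Agent.DCL

open Pool.Agent.DCS

variable {V : Type} [Fintype V] [DecidableEq V]

/-- the cherries -/
theorem ch_sum {H : Finset (Finset V)} {k s : ℕ} {e : ℝ} (h : Lev V H k s e) (he1 : e ≤ 1)
    {δ : ℝ} (hδ : δ = (k : ℝ) / ((s : ℝ) + 3)) :
    ∑ o ∈ pr H s, ch (ext H o.1) (Rl H o.1 o.2) ≤
      el δ e ((s : ℝ) + 3) * (pr H s).card * (δ * (Fintype.card V : ℝ)) ^ 3 := by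
  sorry

end Pool.Agent.DCL
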