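import Pool.Agent.DCL.El

/-!
# DCL-Gs: a family of graphs with few cherries on average

Only averages are needed, and everything is linear in the error `l`.

Induction on `j`: with `E j = ∑ o |tp (X o) (R o) (j+1)|`: `|E j - cc p j |O| a ^ (j+1)| ≤ C_j l |O| a ^ (j+1)`.
`j = 0`: `tp_one` and the bound for `∑ (|X| - a)`. Step: `E_step` summed over `O`, `∑ Li ≤ 3 l |O| a³`, `cc_abs_le`.
At the end `E j ≥ 0`.
-/

set_option linter.unusedSectionVars false

open Finset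

namespace Pool.Agent.DCL

open Pool.Agent.DCS (nb nn)

private theorem gs_real {a S1 S0 c cj B s t L C C0 l n m A : ℝ} (ha : 0 < a) (hA : 0 < A)
    (hn : 0 < n) (hm : 1 ≤ m) (hl : 0 ≤ l) (hC : 0 ≤ C) (hC0 : 0 ≤ C0) (hB : 0 ≤ B)
    (hc : |c| ≤ m) (hcj : |cj| ≤ B)
    (h1 : a * |S1 - c * a * S0 - m * cj * A * t + (m - 1) * cj * (A * a) * s| ≤ C * A * L)
    (hL : L ≤ 3 * (l * n * a ^ 3))
    (h0 : |S0 - cj * n * (A * a)| ≤ C0 * l * n * (A * a))
    (ht : |t| ≤ l * n * a ^ 2) (hs : |s| ≤ l * n * a) :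
    |S1 - cj * c * n * (A * a * a)| ≤ (3 * C + m * B + m * B + m * C0) * l * n * (A * a * a) := by
  have hln : 0 ≤ l * n := mul_nonneg hl hn.le
  have e1 : |S1 - c * a * S0 - m * cj * A * t + (m - 1) * cj * (A * a) * s| ≤
      3 * C * (l * n) * (A * a * a) := by
    have h2 : a * |S1 - c * a * S0 - m * cj * A * t + (m - 1) * cj * (A * a) * s| ≤
        a * (3 * C * (l * n) * (A * a * a)) := by
      refine h1.trans ?_
      have h3 : C * A * L ≤ C * A * (3 * (l * n * a ^ 3)) :=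
        mul_le_mul_of_nonneg_left hL (mul_nonneg hC hA.le)
      refine h3.trans (le_of_eq ?_)
      ring
    exact le_of_mul_le_mul_left h2 ha
  have e2 : |m * cj * A * t| ≤ m * B * (l * n) * (A * a * a) := by
    rw [abs_mul, abs_mul, abs_mul, abs_of_pos hA, abs_of_pos (lt_of_lt_of_le one_pos hm)]
    have h3 : m * |cj| * A * |t| ≤ m * B * A * (l * n * a ^ 2) := by
      have h4 : m * |cj| * A ≤ m * B * A :=
        mul_le_mul_of_nonneg_right (mul_le_mul_of_nonneg_left hcj (by linarith)) hA.le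
      exact mul_le_mul h4 ht (abs_nonneg _) (by positivity)
    refine h3.trans (le_of_eq ?_)
    ring
  have e3 : |(m - 1) * cj * (A * a) * s| ≤ m * B * (l * n) * (A * a * a) := by
    rw [abs_mul, abs_mul, abs_mul, abs_of_nonneg (by linarith : 0 ≤ m - 1),
      abs_of_pos (mul_pos hA ha)]
    have h3 : (m - 1) * |cj| * (A * a) * |s| ≤ m * B * (A * a) * (l * n * a) := by
      have h5 : (m - 1) * |cj| ≤ m * B := mul_le_mul (by linarith) hcj (abs_nonneg _) (by linarith)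
      have h4 : (m - 1) * |cj| * (A * a) ≤ m * B * (A * a) :=
        mul_le_mul_of_nonneg_right h5 (mul_pos hA ha).le
      exact mul_le_mul h4 hs (abs_nonneg _) (by positivity)
    refine h3.trans (le_of_eq ?_)
    ring
  have e4 : |c * a * (S0 - cj * n * (A * a))| ≤ m * C0 * (l * n) * (A * a * a) := by
    rw [abs_mul, abs_mul, abs_of_pos ha]
    have h3 : |c| * a * |S0 - cj * n * (A * a)| ≤ m * a * (C0 * l * n * (A * a)) := by
      have h4 : |c| * a ≤ m * a := mul_le_mul_of_nonneg_right hc ha.le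
      exact mul_le_mul h4 h0 (abs_nonneg _) (by positivity)
    refine h3.trans (le_of_eq ?_)
    ring
  have e5 : S1 - cj * c * n * (A * a * a) =
      (S1 - c * a * S0 - m * cj * A * t + (m - 1) * cj * (A * a) * s) + m * cj * A * t -
        (m - 1) * cj * (A * a) * s + c * a * (S0 - cj * n * (A * a)) := by ring
  rw [e5]
  have f1 := abs_le.1 e1
  have f2 := abs_le.1 e2
  have f3 := abs_le.1 e3
  have f4 := abs_le.1 e4
  have e6 : (3 * C + m * B + m * B + m * C0) * l * n * (A * a * a) =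
      3 * C * (l * n) * (A * a * a) + m * B * (l * n) * (A * a * a) +
        m * B * (l * n) * (A * a * a) + m * C0 * (l * n) * (A * a * a) := by ring
  rw [e6, abs_le]
  constructor
  · linarith [f1.1, f2.1, f3.2, f4.1]
  · linarith [f1.2, f2.2, f3.1, f4.2]

private theorem gs_main (K : ℝ) (hK : 1 ≤ K) : ∀ j : ℕ, ∃ C : ℝ, 0 ≤ C ∧
    ∀ (ι V : Type) [Fintype V] [DecidableEq V] (O : Finset ι) (X : ι → Finset V)
      (R : ι → V → V → Prop) (a p l : ℝ),
      0 < (O.card : ℝ) → 0 < a → 0 ≤ p → p ≤ 1 → 0 ≤ l →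
      (∀ o ∈ O, ∀ x y, R o x y → R o y x) →
      (∀ o ∈ O, ((X o).card : ℝ) ≤ K * a) →
      |∑ o ∈ O, (((X o).card : ℝ) - a)| ≤ l * O.card * a →
      |∑ o ∈ O, ∑ x ∈ X o, tt (X o) (R o) a p x| ≤ l * O.card * a ^ 2 →
      ∑ o ∈ O, (((X o).card : ℝ) - a) ^ 2 ≤ l * O.card * a ^ 2 →
      ∑ o ∈ O, ∑ x ∈ X o, tt (X o) (R o) a p x ^ 2 ≤ l * O.card * a ^ 3 →
      ∑ o ∈ O, ch (X o) (R o) ≤ l * O.card * a ^ 3 →
      |∑ o ∈ O, ((tp (X o) (R o) (j + 1)).card : ℝ) - cc p j * O.card * a ^ (j + 1)| ≤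
        C * l * O.card * a ^ (j + 1) := by
  intro j
  induction j with
  | zero =>
    refine ⟨1, zero_le_one, ?_⟩
    intro ι V _ _ O X R a p l hO ha hp0 hp1 hl hR hX h1 h2 h3 h4 h5
    have e1 : ∑ o ∈ O, ((tp (X o) (R o) (0 + 1)).card : ℝ) - cc p 0 * O.card * a ^ (0 + 1) =
        ∑ o ∈ O, (((X o).card : ℝ) - a) := by
      rw [Finset.sum_sub_distrib, Finset.sum_const, nsmul_eq_mul]
      have e2 : ∑ o ∈ O, ((tp (X o) (R o) (0 + 1)).card : ℝ) = ∑ o ∈ O, ((X o).card : ℝ) :=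
        Finset.sum_congr rfl fun o _ => tp_one (X o) (R o)
      rw [e2]
      unfold cc
      simp
    rw [e1]
    refine h1.trans (le_of_eq ?_)
    ring
  | succ j ih =>
    obtain ⟨C0, hC0, ih⟩ := ih
    obtain ⟨C, hC, hE⟩ := E_step j K hK
    refine ⟨3 * C + ((j : ℝ) + 1) * ((j : ℝ) + 1) ^ j + ((j : ℝ) + 1) * ((j : ℝ) + 1) ^ j +
      ((j : ℝ) + 1) * C0, by positivity, ?_⟩
    intro ι V _ _ O X R a p l hO ha hp0 hp1 hl hR hX h1 h2 h3 h4 h5
    have ih' := ih ι V O X R a p l hO ha hp0 hp1 hl hR hX h1 h2 h3 h4 h5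
    have hj : (0 : ℝ) ≤ (j : ℝ) := Nat.cast_nonneg _
    have hc : |1 - ((j : ℝ) + 1) * p| ≤ (j : ℝ) + 1 := by
      rw [abs_le]
      constructor
      · have : ((j : ℝ) + 1) * p ≤ (j : ℝ) + 1 := mul_le_of_le_one_right (by linarith) hp1
        linarith
      · have : 0 ≤ ((j : ℝ) + 1) * p := mul_nonneg (by linarith) hp0
        linarith
    have hL : ∑ o ∈ O, Li (X o) (R o) a p ≤ 3 * (l * O.card * a ^ 3) := by
      unfold Li
      rw [Finset.sum_add_distrib, Finset.sum_add_distrib, ← Finset.mul_sum]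
      have h6 : a * ∑ o ∈ O, (((X o).card : ℝ) - a) ^ 2 ≤ a * (l * O.card * a ^ 2) :=
        mul_le_mul_of_nonneg_left h3 ha.le
      have h7 : a * (l * O.card * a ^ 2) = l * O.card * a ^ 3 := by ring
      linarith
    have hS : a * |∑ o ∈ O, ((tp (X o) (R o) (j + 2)).card : ℝ) -
        (1 - ((j : ℝ) + 1) * p) * a * ∑ o ∈ O, ((tp (X o) (R o) (j + 1)).card : ℝ) -
        ((j : ℝ) + 1) * cc p j * a ^ j * ∑ o ∈ O, ∑ x ∈ X o, tt (X o) (R o) a p x +
        ((j : ℝ) + 1 - 1) * cc p j * (a ^ j * a) * ∑ o ∈ O, (((X o).card : ℝ) - a)| ≤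
        C * a ^ j * ∑ o ∈ O, Li (X o) (R o) a p := by
      have e1 : ∑ o ∈ O, ((tp (X o) (R o) (j + 2)).card : ℝ) -
          (1 - ((j : ℝ) + 1) * p) * a * ∑ o ∈ O, ((tp (X o) (R o) (j + 1)).card : ℝ) -
          ((j : ℝ) + 1) * cc p j * a ^ j * ∑ o ∈ O, ∑ x ∈ X o, tt (X o) (R o) a p x +
          ((j : ℝ) + 1 - 1) * cc p j * (a ^ j * a) * ∑ o ∈ O, (((X o).card : ℝ) - a) =
          ∑ o ∈ O, (((tp (X o) (R o) (j + 2)).card : ℝ) -
            (1 - ((j : ℝ) + 1) * p) * a * ((tp (X o) (R o) (j + 1)).card : ℝ) -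
            ((j : ℝ) + 1) * cc p j * a ^ j * ∑ x ∈ X o, tt (X o) (R o) a p x +
            (j : ℝ) * cc p j * a ^ (j + 1) * (((X o).card : ℝ) - a)) := by
        simp only [Finset.sum_add_distrib, Finset.sum_sub_distrib, ← Finset.mul_sum]
        ring
      rw [e1]
      calc a * |∑ o ∈ O, (((tp (X o) (R o) (j + 2)).card : ℝ) -
            (1 - ((j : ℝ) + 1) * p) * a * ((tp (X o) (R o) (j + 1)).card : ℝ) -
            ((j : ℝ) + 1) * cc p j * a ^ j * ∑ x ∈ X o, tt (X o) (R o) a p x +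
            (j : ℝ) * cc p j * a ^ (j + 1) * (((X o).card : ℝ) - a))|
          ≤ a * ∑ o ∈ O, |((tp (X o) (R o) (j + 2)).card : ℝ) -
            (1 - ((j : ℝ) + 1) * p) * a * ((tp (X o) (R o) (j + 1)).card : ℝ) -
            ((j : ℝ) + 1) * cc p j * a ^ j * ∑ x ∈ X o, tt (X o) (R o) a p x +
            (j : ℝ) * cc p j * a ^ (j + 1) * (((X o).card : ℝ) - a)| :=
            mul_le_mul_of_nonneg_left (Finset.abs_sum_le_sum_abs _ _) ha.le
        _ = ∑ o ∈ O, a * |((tp (X o) (R o) (j + 2)).card : ℝ) -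
            (1 - ((j : ℝ) + 1) * p) * a * ((tp (X o) (R o) (j + 1)).card : ℝ) -
            ((j : ℝ) + 1) * cc p j * a ^ j * ∑ x ∈ X o, tt (X o) (R o) a p x +
            (j : ℝ) * cc p j * a ^ (j + 1) * (((X o).card : ℝ) - a)| := Finset.mul_sum _ _ _
        _ ≤ ∑ o ∈ O, C * a ^ j * Li (X o) (R o) a p :=
            Finset.sum_le_sum fun o ho => hE V (X o) (R o) a p (hR o ho) ha hp0 hp1 (hX o ho)
        _ = C * a ^ j * ∑ o ∈ O, Li (X o) (R o) a p := (Finset.mul_sum _ _ _).symm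
    have hcc : cc p (j + 1) = cc p j * (1 - ((j : ℝ) + 1) * p) := by
      unfold cc
      rw [Finset.prod_range_succ]
    have h0 : |∑ o ∈ O, ((tp (X o) (R o) (j + 1)).card : ℝ) - cc p j * O.card * (a ^ j * a)| ≤
        C0 * l * O.card * (a ^ j * a) := by
      have e2 : a ^ (j + 1) = a ^ j * a := pow_succ a j
      rw [← e2]
      exact ih'
    have hfin := gs_real (cj := cc p j) (B := ((j : ℝ) + 1) ^ j) ha (pow_pos ha j) hO
      (by linarith : (1 : ℝ) ≤ (j : ℝ) + 1) hl hC hC0 (by positivity) hc (cc_abs_le hp0 hp1 j)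
      hS hL h0 h2 h1
    have e3 : a ^ (j + 1 + 1) = a ^ j * a * a := by ring
    rw [hcc, e3]
    exact hfin

/-- the linear graph lemma for a family of graphs -/
theorem graph_family (j : ℕ) (K : ℝ) (hK : 1 ≤ K) : ∃ C : ℝ, 0 ≤ C ∧
    ∀ (ι V : Type) [Fintype V] [DecidableEq V] (O : Finset ι) (X : ι → Finset V)
      (R : ι → V → V → Prop) (a p l : ℝ),
      0 < (O.card : ℝ) → 0 < a → 0 ≤ p → p ≤ 1 → 0 ≤ l →
      (∀ o ∈ O, ∀ x y, R o x y → R o y x) →
      (∀ o ∈ O, ((X o).card : ℝ) ≤ K * a) →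
      |∑ o ∈ O, (((X o).card : ℝ) - a)| ≤ l * O.card * a →
      |∑ o ∈ O, ∑ x ∈ X o, tt (X o) (R o) a p x| ≤ l * O.card * a ^ 2 →
      ∑ o ∈ O, (((X o).card : ℝ) - a) ^ 2 ≤ l * O.card * a ^ 2 →
      ∑ o ∈ O, ∑ x ∈ X o, tt (X o) (R o) a p x ^ 2 ≤ l * O.card * a ^ 3 →
      ∑ o ∈ O, ch (X o) (R o) ≤ l * O.card * a ^ 3 →
      -(C * l) ≤ cc p j := by
  obtain ⟨C, hC, h⟩ := gs_main K hK j
  refine ⟨C, hC, ?_⟩
  intro ι V _ _ O X R a p l hO ha hp0 hp1 hl hR hX h1 h2 h3 h4 h5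
  have h6 := abs_le.1 (h ι V O X R a p l hO ha hp0 hp1 hl hR hX h1 h2 h3 h4 h5)
  have h7 : (0 : ℝ) ≤ ∑ o ∈ O, ((tp (X o) (R o) (j + 1)).card : ℝ) :=
    Finset.sum_nonneg fun _ _ => Nat.cast_nonneg _
  have h8 : 0 < (O.card : ℝ) * a ^ (j + 1) := mul_pos hO (pow_pos ha _)
  have h9 : 0 ≤ (cc p j + C * l) * ((O.card : ℝ) * a ^ (j + 1)) := by
    have h10 : (cc p j + C * l) * ((O.card : ℝ) * a ^ (j + 1)) =
        cc p j * O.card * a ^ (j + 1) + C * l * O.card * a ^ (j + 1) := by ring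
    rw [h10]
    linarith [h6.2]
  have h11 : 0 ≤ cc p j + C * l := nonneg_of_mul_nonneg_left h9 h8
  linarith

end Pool.Agent.DCL
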