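import Pool.Agent.DCL.FlA

/-!
# DCL-Num: the product `∏ i ≤ j (1 - i p)` is negative if `1 / p` is not an integer, quantitatively

`q = ⌊1 / p⌋₊ ≥ 1`, `j = q + 1`, `J = ⌊1 / ε⌋₊ + 1`. If `q = 1`: `cc p 2 = (1 - p) (1 - 2 p) ≤ - θ ε D`. If `q ≥ 2`: the
factors `1 - i p`, `i < q`, are at least `p`, and the last two factors are `a₁ = 1 - q p ≥ D p` and `- a₂`,
`a₂ = (q + 1) p - 1 ≥ D p`, `a₁ + a₂ = p`.
-/

open Finset

namespace Pool.Agent.DCL

private theorem num_prod {p : ℝ} (hp : 0 < p) {m : ℕ} (h : ((m : ℝ) + 1) * p ≤ 1) :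
    p ^ m ≤ ∏ i ∈ range m, (1 - ((i : ℝ) + 1) * p) := by
  have h1 : ∏ _i ∈ range m, p = p ^ m := by rw [prod_const, card_range]
  rw [← h1]
  refine prod_le_prod (fun _ _ => hp.le) fun i hi => ?_
  have h2 : i + 1 ≤ m := mem_range.1 hi
  have h3 : (i : ℝ) + 1 ≤ m := by exact_mod_cast h2
  nlinarith [mul_le_mul_of_nonneg_right h3 hp.le]

private theorem num_two {a b d p : ℝ} (hd : 0 ≤ d) (ha : d ≤ a) (hb : d ≤ b) (hab : a + b = p) :
    d * p / 2 ≤ a * b := by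
  rcases le_total a b with h | h
  · nlinarith
  · nlinarith

/-- with `q = ⌊1 / p⌋`, `j = q + 1`: `cc p (q + 1) ≤ - κ D` -/
theorem cc_neg (ε θ : ℝ) (hε : 0 < ε) (hθ : 0 < θ) : ∃ κ : ℝ, 0 < κ ∧ ∃ J : ℕ,
    ∀ p D : ℝ, ε ≤ p → p ≤ 1 - θ → 0 ≤ D → (∀ q : ℕ, 2 ≤ q → D ≤ |1 / p - q|) →
      ∃ j : ℕ, j ≤ J ∧ cc p j ≤ -(κ * D) := by
  obtain ⟨J, hJ⟩ : ∃ J : ℕ, J = ⌊1 / ε⌋₊ + 1 := ⟨_, rfl⟩
  refine ⟨min (θ * ε) (ε ^ J / 2), lt_min (by positivity) (by positivity), J, ?_⟩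
  intro p D hp1 hp2 hD hD2
  have hp0 : 0 < p := by linarith
  have hlt : p < 1 := by linarith
  obtain ⟨q, hq⟩ : ∃ q : ℕ, q = ⌊1 / p⌋₊ := ⟨_, rfl⟩
  have hq1 : (q : ℝ) ≤ 1 / p := by
    rw [hq]
    exact Nat.floor_le (by positivity)
  have hq2 : 1 / p < (q : ℝ) + 1 := by
    rw [hq]
    exact Nat.lt_floor_add_one _
  have hq0 : 1 ≤ q := by
    rw [hq]
    refine Nat.le_floor ?_
    rw [Nat.cast_one, le_div_iff₀ hp0]
    linarith
  have hqp : (q : ℝ) * p ≤ 1 := (le_div_iff₀ hp0).1 hq1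
  have hqp2 : 1 < ((q : ℝ) + 1) * p := (div_lt_iff₀ hp0).1 hq2
  have hqJ : q + 1 ≤ J := by
    rw [hJ, hq]
    exact Nat.succ_le_succ (Nat.floor_le_floor (one_div_le_one_div_of_le hε hp1))
  have hinv : p * (1 / p) = 1 := mul_one_div_cancel hp0.ne'
  refine ⟨q + 1, hqJ, ?_⟩
  obtain ⟨m, rfl⟩ : ∃ m, q = m + 1 := ⟨q - 1, by omega⟩
  have hcc : cc p (m + 1 + 1) = (∏ i ∈ range m, (1 - ((i : ℝ) + 1) * p)) * (1 - ((m : ℝ) + 1) * p) *
      (1 - ((m : ℝ) + 2) * p) := by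
    unfold cc
    rw [prod_range_succ, prod_range_succ]
    push_cast
    ring
  push_cast at hq1 hq2 hqp hqp2
  have hb : D * p ≤ ((m : ℝ) + 2) * p - 1 := by
    have h1 := hD2 (m + 2) (by omega)
    push_cast at h1
    rw [abs_of_nonpos (by linarith)] at h1
    have h2 := mul_le_mul_of_nonneg_right h1 hp0.le
    nlinarith
  have hpos : 0 < ((m : ℝ) + 2) * p - 1 := by linarith
  rcases Nat.eq_zero_or_pos m with h0 | h0
  · subst h0
    rw [hcc]
    simp only [range_zero, prod_empty, Nat.cast_zero, zero_add, one_mul] at hb hpos ⊢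
    have h1 : min (θ * ε) (ε ^ J / 2) * D ≤ θ * ε * D := mul_le_mul_of_nonneg_right (min_le_left _ _) hD
    have h2 : θ * (D * p) ≤ (1 - p) * (2 * p - 1) :=
      mul_le_mul (by linarith) hb (by positivity) (by linarith)
    have h3 : θ * ε * D ≤ θ * (D * p) := by
      have h4 : ε * D ≤ p * D := mul_le_mul_of_nonneg_right hp1 hD
      have h5 := mul_le_mul_of_nonneg_left h4 hθ.le
      linarith
    linarith
  · have ha : D * p ≤ 1 - ((m : ℝ) + 1) * p := by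
      have h1 := hD2 (m + 1) (by omega)
      push_cast at h1
      rw [abs_of_nonneg (by linarith)] at h1
      have h2 := mul_le_mul_of_nonneg_right h1 hp0.le
      nlinarith
    have h1 := num_two (p := p) (by positivity : 0 ≤ D * p) ha hb (by ring)
    have h2 := num_prod hp0 (m := m) (by linarith)
    have h3 : ε ^ J ≤ p ^ (m + 2) :=
      (pow_le_pow_of_le_one hε.le (by linarith) hqJ).trans (pow_le_pow_left₀ hε.le hp1 _)
    have h4 : min (θ * ε) (ε ^ J / 2) * D ≤ ε ^ J / 2 * D := mul_le_mul_of_nonneg_right (min_le_right _ _) hD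
    have h5 : p ^ m * (D * p * p / 2) ≤
        (∏ i ∈ range m, (1 - ((i : ℝ) + 1) * p)) * ((1 - ((m : ℝ) + 1) * p) * (((m : ℝ) + 2) * p - 1)) :=
      mul_le_mul h2 h1 (by positivity) ((by positivity : 0 ≤ p ^ m).trans h2)
    have h6 : ε ^ J / 2 * D ≤ p ^ m * (D * p * p / 2) := by
      have h7 := mul_le_mul_of_nonneg_right h3 (by positivity : 0 ≤ D / 2)
      have h8 : p ^ (m + 2) * (D / 2) = p ^ m * (D * p * p / 2) := by ring
      linarith
    rw [hcc]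
    have h9 : (∏ i ∈ range m, (1 - ((i : ℝ) + 1) * p)) * (1 - ((m : ℝ) + 1) * p) * (1 - ((m : ℝ) + 2) * p) =
        -((∏ i ∈ range m, (1 - ((i : ℝ) + 1) * p)) * ((1 - ((m : ℝ) + 1) * p) * (((m : ℝ) + 2) * p - 1))) := by
      ring
    rw [h9]
    linarith

end Pool.Agent.DCL
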