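import Pool.Agent.DCL.ChrB
import Pool.Agent.DCL.ChrC
import Pool.Agent.DCL.Gs
import Pool.Agent.DCL.Num

/-!
# DCL-Core: the distance of `m / (m - k)` from the integers `≥ 2` is at most a constant times the loss

Assembly: `graph_family` for the family of all pairs `(J, w)` (`ChrA`, `ChrB`, `ChrC`) and `cc_neg`.
-/

open Finset Pool.Agent.Helper2.DC

namespace Pool.Agent.DCL

open Pool.Agent.DCS

theorem core_lin (ε α : ℝ) (hε : 0 < ε) (hα : 1 ≤ α) : ∃ K : ℝ, 0 < K ∧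
    ∀ (V : Type) [Fintype V] [DecidableEq V] (H : Finset (Finset V)) (k s : ℕ) (e D : ℝ),
      Lev V H k s e → e ≤ 1 → (1 + ε) * k ≤ (s : ℝ) + 3 → (s : ℝ) + 3 ≤ α * k → 0 ≤ D →
      (∀ q : ℕ, 2 ≤ q → D ≤ |((s : ℝ) + 3) / ((s : ℝ) + 3 - k) - q|) →
      D ≤ K * (e + 1 / ((s : ℝ) + 3)) := by
  have hα0 : 0 < α := by linarith
  obtain ⟨ε', hε'⟩ : ∃ ε' : ℝ, ε' = ε / (1 + ε) := ⟨_, rfl⟩
  have hε'0 : 0 < ε' := by rw [hε']; positivity
  obtain ⟨κ, hκ, J, hJ⟩ := cc_neg ε' (1 / α) hε'0 (by positivity)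
  choose C hC0 hC using fun j : ℕ => graph_family j α hα
  obtain ⟨S, hS⟩ : ∃ S : ℝ, S = ∑ j ∈ range (J + 1), C j := ⟨_, rfl⟩
  have hS0 : 0 ≤ S := by
    rw [hS]
    exact sum_nonneg fun j _ => hC0 j
  refine ⟨S / κ * (3100 * α ^ 7 / ε' ^ 2) + 1, by positivity, ?_⟩
  intro V _ _ H k s e D h he1 hlow hup hD0 hD
  have hk0 : (0 : ℝ) < (k : ℝ) := by
    have := h.hk
    have h1 : (8 : ℝ) ≤ (k : ℝ) := by exact_mod_cast this
    linarith
  have hs0 : (0 : ℝ) ≤ (s : ℝ) := Nat.cast_nonneg _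
  have hm0 : (0 : ℝ) < (s : ℝ) + 3 := by linarith
  have hn0 : (0 : ℝ) < (Fintype.card V : ℝ) := by
    have h1 := h.hn
    have h2 : 0 < e * (Fintype.card V : ℝ) := by linarith
    exact (mul_pos_iff_of_pos_left h.he).1 h2
  obtain ⟨δ, hδ⟩ : ∃ δ : ℝ, δ = (k : ℝ) / ((s : ℝ) + 3) := ⟨_, rfl⟩
  have hδ0 : 0 < δ := by rw [hδ]; positivity
  have hδlow : 1 / α ≤ δ := by
    rw [hδ, div_le_div_iff₀ hα0 hm0]
    linarith
  have hδup : δ ≤ 1 / (1 + ε) := by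
    rw [hδ, div_le_div_iff₀ hm0 (by linarith)]
    linarith
  have hεe : 1 - 1 / (1 + ε) = ε' := by
    rw [hε']
    field_simp
    ring
  have hp1 : ε' ≤ 1 - δ := by linarith
  have hp0 : 0 < 1 - δ := by linarith
  have hl : 0 ≤ el δ e ((s : ℝ) + 3) := by
    unfold el
    have h1 : 0 ≤ e + 1 / ((s : ℝ) + 3) := by
      have := h.he
      positivity
    positivity
  have hinv : 1 / (1 - δ) = ((s : ℝ) + 3) / ((s : ℝ) + 3 - k) := by
    have h1 : (s : ℝ) + 3 - k = (1 - δ) * ((s : ℝ) + 3) := by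
      rw [hδ]
      field_simp
    rw [h1]
    field_simp
  obtain ⟨j, hj, hcc⟩ := hJ (1 - δ) D hp1 (by linarith) hD0 (by rw [hinv]; exact hD)
  have hO : 0 < ((pr H s).card : ℝ) := by
    rw [card_pr]
    have := h.N1
    positivity
  have hαδ : 1 ≤ α * δ := by
    have h1 := mul_le_mul_of_nonneg_left hδlow hα0.le
    have h2 : α * (1 / α) = 1 := by field_simp
    linarith
  have hgf := hC j (Finset V × V) V (pr H s) (fun o => ext H o.1) (fun o => Rl H o.1 o.2)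
    (δ * (Fintype.card V : ℝ)) (1 - δ) (el δ e ((s : ℝ) + 3)) hO (by positivity) hp0.le
    (by linarith) hl (fun o _ x y hxy => Rl_symm hxy)
    (fun o _ => by
      have h1 : ((ext H o.1).card : ℝ) ≤ (Fintype.card V : ℝ) := by
        exact_mod_cast card_le_univ _
      have h2 : (Fintype.card V : ℝ) ≤ α * (δ * (Fintype.card V : ℝ)) := by
        have h3 := mul_le_mul_of_nonneg_right hαδ hn0.le
        linarith
      exact h1.trans h2)
    (pts_one h he1 hδ) (deg_one h he1 hδ) (pts_sq h he1 hδ) (deg_sq h he1 hδ) (ch_sum h he1 hδ)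
  have hCS : C j ≤ S := by
    rw [hS]
    exact single_le_sum (fun i _ => hC0 i) (mem_range.2 (Nat.lt_succ_of_le hj))
  have h1 : κ * D ≤ S * el δ e ((s : ℝ) + 3) := by
    have h2 := mul_le_mul_of_nonneg_right hCS hl
    linarith
  have h3 : D ≤ S / κ * el δ e ((s : ℝ) + 3) := by
    rw [div_mul_eq_mul_div, le_div_iff₀ hκ]
    linarith
  have he0 : 0 ≤ e + 1 / ((s : ℝ) + 3) := by
    have := h.he
    positivity
  have h4 : el δ e ((s : ℝ) + 3) ≤ 3100 * α ^ 7 / ε' ^ 2 * (e + 1 / ((s : ℝ) + 3)) := by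
    unfold el
    apply mul_le_mul_of_nonneg_right _ he0
    have h5 : (1 / α) ^ 7 ≤ δ ^ 7 := pow_le_pow_left₀ (by positivity) hδlow 7
    have h6 : ε' ^ 2 ≤ (1 - δ) ^ 2 := pow_le_pow_left₀ hε'0.le hp1 2
    have h7 : (1 / α) ^ 7 * ε' ^ 2 ≤ δ ^ 7 * (1 - δ) ^ 2 :=
      mul_le_mul h5 h6 (by positivity) (by positivity)
    have h8 : 3100 * α ^ 7 / ε' ^ 2 = 3100 / ((1 / α) ^ 7 * ε' ^ 2) := by
      field_simp
    rw [h8]
    exact div_le_div_of_nonneg_left (by norm_num) (by positivity) h7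
  have h9 : S / κ * el δ e ((s : ℝ) + 3) ≤
      S / κ * (3100 * α ^ 7 / ε' ^ 2) * (e + 1 / ((s : ℝ) + 3)) := by
    rw [mul_assoc]
    exact mul_le_mul_of_nonneg_left h4 (by positivity)
  have h10 : (S / κ * (3100 * α ^ 7 / ε' ^ 2) + 1) * (e + 1 / ((s : ℝ) + 3)) =
      S / κ * (3100 * α ^ 7 / ε' ^ 2) * (e + 1 / ((s : ℝ) + 3)) + (e + 1 / ((s : ℝ) + 3)) := by
    ring
  rw [h10]
  linarith

end Pool.Agent.DCL
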