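import Pool.Agent.DCL.Fl

/-!
# DCL-El: the number of the tuples, one graph

Plan. `card_succ (j+1)`, `cm_eq`, `sum_first`, `sum_coord`: with `y x = Ff j x - cc j a ^ j`, `ν = |X| - a`, the
expression in the absolute value is `(j+1) ∑ y x tt x - j ν ∑ y x - j cc a ^ j ν² + ∑ f ov f`
(`|tp (j+1)| = ∑ x Ff j x = ∑ y + cc a ^ j (a + ν)`). Bounds (times `a`): `a |∑ y tt| ≤ (a ^ j ∑ tt² + a² ∑ y² / a ^ j) / 2`,
`Ff_sq`; `a |ν| |∑ y| ≤ (a ^ (j+1) ν² + a (∑ y)² / a ^ j) / 2`, `(∑ y)² ≤ |X| ∑ y² ≤ K a ∑ y²`; `cc_abs_le`;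
`∑ ov ≤ (j+1)² |X| ^ (j-1) ch` (`j ≥ 1`), `= 0` for `j = 0`.
-/

set_option linter.unusedSectionVars false

open Finset

namespace Pool.Agent.DCL

open Pool.Agent.DCS (nb nn)

/-- one point: no overlap -/
theorem El_ov_one {V : Type} [Fintype V] [DecidableEq V] {X : Finset V} {R : V → V → Prop}
    (hR : ∀ x y, R x y → R y x) {f : Fin (0 + 1) → V} (hf : f ∈ tp X R (0 + 1)) : ov X R f = 0 := by
  apply le_antisymm
  · have h := ov_le_pairs hR hf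
    refine le_trans h (le_of_eq ?_)
    apply sum_eq_zero
    intro i _
    apply sum_eq_zero
    intro i' hi'
    have h1 : i' = i := by
      apply Fin.ext
      have := i.2
      have := i'.2
      omega
    exact absurd h1 (ne_of_mem_erase hi')
  · exact ov_nonneg hf

/-- the sum of the overlaps -/
theorem El_ov_bound {V : Type} [Fintype V] [DecidableEq V] {X : Finset V} {R : V → V → Prop}
    (hR : ∀ x y, R x y → R y x) {a p K : ℝ} (ha : 0 < a) (hK : 1 ≤ K)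
    (hX : (X.card : ℝ) ≤ K * a) (j : ℕ) :
    a * ∑ f ∈ tp X R (j + 1), ov X R f ≤ ((j : ℝ) + 1) ^ 2 * K ^ j * a ^ j * Li X R a p := by
  have hL : 0 ≤ Li X R a p := Li_nonneg ha.le
  have hK0 : 0 ≤ K := by linarith
  rcases Nat.eq_zero_or_pos j with rfl | hj
  · rw [sum_eq_zero (fun f hf => El_ov_one hR hf), mul_zero]
    positivity
  · obtain ⟨k, rfl⟩ : ∃ k, j = k + 1 := ⟨j - 1, by omega⟩
    have h := ov_sum (X := X) hR (k + 1 + 1)
    have e : k + 1 + 1 - 2 = k := by omega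
    rw [e] at h
    push_cast at h ⊢
    have hch : ch X R ≤ Li X R a p := by
      unfold Li
      have h1 : 0 ≤ ∑ x ∈ X, tt X R a p x ^ 2 := sum_nonneg fun _ _ => sq_nonneg _
      have h2 : 0 ≤ a * ((X.card : ℝ) - a) ^ 2 := mul_nonneg ha.le (sq_nonneg _)
      linarith
    have hp : (X.card : ℝ) ^ k ≤ (K * a) ^ k := pow_le_pow_left₀ (Nat.cast_nonneg _) hX k
    have hKk : K ^ k ≤ K ^ (k + 1) := pow_le_pow_right₀ hK (Nat.le_succ k)
    have hc0 := ch_nonneg X R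
    calc a * ∑ f ∈ tp X R (k + 1 + 1), ov X R f
        ≤ a * (((k : ℝ) + 1 + 1) ^ 2 * (X.card : ℝ) ^ k * ch X R) :=
          mul_le_mul_of_nonneg_left h ha.le
      _ ≤ a * (((k : ℝ) + 1 + 1) ^ 2 * (K * a) ^ k * Li X R a p) := by
          apply mul_le_mul_of_nonneg_left _ ha.le
          apply mul_le_mul _ hch hc0 (by positivity)
          apply mul_le_mul_of_nonneg_left hp (by positivity)
      _ = (((k : ℝ) + 1 + 1) ^ 2 * a ^ (k + 1) * Li X R a p) * K ^ k := by rw [mul_pow]; ring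
      _ ≤ (((k : ℝ) + 1 + 1) ^ 2 * a ^ (k + 1) * Li X R a p) * K ^ (k + 1) := by
          apply mul_le_mul_of_nonneg_left hKk (by positivity)
      _ = ((k : ℝ) + 1 + 1) ^ 2 * K ^ (k + 1) * a ^ (k + 1) * Li X R a p := by ring

/-- the exact formula -/
theorem El_ident {V : Type} [Fintype V] [DecidableEq V] {X : Finset V} {R : V → V → Prop}
    (hR : ∀ x y, R x y → R y x) (a p : ℝ) (j : ℕ) :
    ((tp X R (j + 2)).card : ℝ) - (1 - ((j : ℝ) + 1) * p) * a * ((tp X R (j + 1)).card : ℝ) -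
          ((j : ℝ) + 1) * cc p j * a ^ j * ∑ x ∈ X, tt X R a p x +
          (j : ℝ) * cc p j * a ^ (j + 1) * ((X.card : ℝ) - a) =
      ((j : ℝ) + 1) * ∑ x ∈ X, (Ff X R j x - cc p j * a ^ j) * tt X R a p x -
        (j : ℝ) * ((X.card : ℝ) - a) * ∑ x ∈ X, (Ff X R j x - cc p j * a ^ j) -
        (j : ℝ) * cc p j * a ^ j * ((X.card : ℝ) - a) ^ 2 +
        ∑ f ∈ tp X R (j + 1), ov X R f := by
  have h1 : ((tp X R (j + 2)).card : ℝ) = ∑ f ∈ tp X R (j + 1), ((cm X R f).card : ℝ) :=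
    card_succ hR (j + 1)
  have h2 : ∑ f ∈ tp X R (j + 1), ((cm X R f).card : ℝ) =
      (1 - ((j : ℝ) + 1) * p) * a * ((tp X R (j + 1)).card : ℝ) +
      (((j : ℝ) + 1) * ∑ x ∈ X, Ff X R j x * tt X R a p x -
        (j : ℝ) * ((X.card : ℝ) - a) * ((tp X R (j + 1)).card : ℝ) +
        ∑ f ∈ tp X R (j + 1), ov X R f) := by
    have e1 : ∑ f ∈ tp X R (j + 1), ((cm X R f).card : ℝ) =
        ∑ f ∈ tp X R (j + 1), ((1 - ((j : ℝ) + 1) * p) * a +
          (∑ i, tt X R a p (f i) - (j : ℝ) * ((X.card : ℝ) - a) + ov X R f)) :=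
      sum_congr rfl fun f _ => cm_eq X R a p f
    have e2 : ∑ f ∈ tp X R (j + 1), ∑ i, tt X R a p (f i) =
        ((j : ℝ) + 1) * ∑ x ∈ X, Ff X R j x * tt X R a p x := by
      rw [sum_comm, sum_congr rfl (fun i _ => sum_coord j (tt X R a p) i)]
      rw [sum_const, sum_first X R j (tt X R a p), card_univ, Fintype.card_fin, nsmul_eq_mul]
      push_cast
      ring
    rw [e1, sum_add_distrib, sum_add_distrib, sum_sub_distrib, e2, sum_const, sum_const,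
      nsmul_eq_mul, nsmul_eq_mul]
    ring
  have h3 : ((tp X R (j + 1)).card : ℝ) = ∑ x ∈ X, Ff X R j x := by
    have h := sum_first X R j (fun _ => (1 : ℝ))
    simpa using h
  have h4 : ∑ x ∈ X, (Ff X R j x - cc p j * a ^ j) * tt X R a p x =
      ∑ x ∈ X, Ff X R j x * tt X R a p x - cc p j * a ^ j * ∑ x ∈ X, tt X R a p x := by
    rw [mul_sum, ← sum_sub_distrib]
    exact sum_congr rfl fun x _ => by ring
  have h5 : ∑ x ∈ X, (Ff X R j x - cc p j * a ^ j) =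
      ∑ x ∈ X, Ff X R j x - (X.card : ℝ) * (cc p j * a ^ j) := by
    rw [sum_sub_distrib, sum_const, nsmul_eq_mul]
  rw [h1, h2, h4, h5, h3]
  ring

/-- the number of the `(j+2)`-tuples in terms of the number of the `(j+1)`-tuples, up to an error which is linear
in `Li` -/
theorem E_step (j : ℕ) (K : ℝ) (hK : 1 ≤ K) : ∃ C : ℝ, 0 ≤ C ∧
    ∀ (V : Type) [Fintype V] [DecidableEq V] (X : Finset V) (R : V → V → Prop) (a p : ℝ),
      (∀ x y, R x y → R y x) → 0 < a → 0 ≤ p → p ≤ 1 → (X.card : ℝ) ≤ K * a →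
      a * |((tp X R (j + 2)).card : ℝ) - (1 - ((j : ℝ) + 1) * p) * a * ((tp X R (j + 1)).card : ℝ) -
          ((j : ℝ) + 1) * cc p j * a ^ j * ∑ x ∈ X, tt X R a p x +
          (j : ℝ) * cc p j * a ^ (j + 1) * ((X.card : ℝ) - a)| ≤
        C * a ^ j * Li X R a p := by
  obtain ⟨C1, hC1, hF⟩ := Ff_sq j K hK
  have hK0 : 0 ≤ K := by linarith
  refine ⟨((j : ℝ) + 1) * ((1 + C1) / 2) + (j : ℝ) * ((1 + K * C1) / 2) +
    (j : ℝ) * ((j : ℝ) + 1) ^ j + ((j : ℝ) + 1) ^ 2 * K ^ j, by positivity, ?_⟩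
  intro V _ _ X R a p hR ha hp0 hp1 hX
  rw [El_ident hR a p j]
  have hFs := hF V X R a p hR ha hp0 hp1 hX
  have hL : 0 ≤ Li X R a p := Li_nonneg ha.le
  have hov := El_ov_bound (p := p) hR ha hK hX j
  have hov0 : 0 ≤ ∑ f ∈ tp X R (j + 1), ov X R f := sum_nonneg fun f hf => ov_nonneg hf
  have hcc := cc_abs_le hp0 hp1 j
  have haj : 0 < a ^ j := pow_pos ha j
  set L := Li X R a p with hLd
  have hLtt : ∑ x ∈ X, tt X R a p x ^ 2 ≤ L := by
    rw [hLd]; unfold Li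
    have h2 : 0 ≤ a * ((X.card : ℝ) - a) ^ 2 := mul_nonneg ha.le (sq_nonneg _)
    have h3 := ch_nonneg X R
    linarith
  have hLnu : a * ((X.card : ℝ) - a) ^ 2 ≤ L := by
    rw [hLd]; unfold Li
    have h1 : 0 ≤ ∑ x ∈ X, tt X R a p x ^ 2 := sum_nonneg fun _ _ => sq_nonneg _
    have h3 := ch_nonneg X R
    linarith
  set y : V → ℝ := fun x => Ff X R j x - cc p j * a ^ j with hy
  set ν : ℝ := (X.card : ℝ) - a with hν
  -- the sum of the squares of `y`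
  have hy2 : a ^ 2 * ∑ x ∈ X, y x ^ 2 ≤ C1 * a ^ (2 * j) * L := hFs
  have hy2' : a ^ 2 * ∑ x ∈ X, y x ^ 2 ≤ (C1 * a ^ j * L) * a ^ j := by
    refine le_trans hy2 (le_of_eq ?_)
    rw [two_mul, pow_add]; ring
  -- first term
  have b1 : a * |∑ x ∈ X, y x * tt X R a p x| ≤ (1 + C1) / 2 * (a ^ j * L) := by
    have hcs : (∑ x ∈ X, y x * tt X R a p x) ^ 2 ≤
        (∑ x ∈ X, y x ^ 2) * ∑ x ∈ X, tt X R a p x ^ 2 := sum_mul_sq_le_sq_mul_sq X _ _
    have hq : (a * |∑ x ∈ X, y x * tt X R a p x|) ^ 2 ≤ C1 * (a ^ j * L) ^ 2 := by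
      rw [mul_pow, sq_abs]
      have hs0 : 0 ≤ ∑ x ∈ X, tt X R a p x ^ 2 := sum_nonneg fun _ _ => sq_nonneg _
      calc a ^ 2 * (∑ x ∈ X, y x * tt X R a p x) ^ 2
          ≤ a ^ 2 * ((∑ x ∈ X, y x ^ 2) * ∑ x ∈ X, tt X R a p x ^ 2) :=
            mul_le_mul_of_nonneg_left hcs (by positivity)
        _ = (a ^ 2 * ∑ x ∈ X, y x ^ 2) * ∑ x ∈ X, tt X R a p x ^ 2 := by ring
        _ ≤ ((C1 * a ^ j * L) * a ^ j) * L := mul_le_mul hy2' hLtt hs0 (by positivity)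
        _ = C1 * (a ^ j * L) ^ 2 := by ring
    have hm : C1 * (a ^ j * L) ^ 2 ≤ ((1 + C1) / 2 * (a ^ j * L)) ^ 2 := by
      rw [mul_pow ((1 + C1) / 2)]
      apply mul_le_mul_of_nonneg_right _ (sq_nonneg _)
      nlinarith [sq_nonneg (1 - C1)]
    exact abs_le_of_sq_le_sq' (le_trans hq hm) (by positivity) |>.2
  -- second term
  have b2 : a * (|ν| * |∑ x ∈ X, y x|) ≤ (1 + K * C1) / 2 * (a ^ j * L) := by
    have hcs : (∑ x ∈ X, y x) ^ 2 ≤ (X.card : ℝ) * ∑ x ∈ X, y x ^ 2 := sq_sum_le_card_mul_sum_sq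
    have hq : (a * (|ν| * |∑ x ∈ X, y x|)) ^ 2 ≤ (K * C1) * (a ^ j * L) ^ 2 := by
      rw [mul_pow, mul_pow, sq_abs, sq_abs]
      have hs0 : 0 ≤ ∑ x ∈ X, y x ^ 2 := sum_nonneg fun _ _ => sq_nonneg _
      calc a ^ 2 * (ν ^ 2 * (∑ x ∈ X, y x) ^ 2)
          ≤ a ^ 2 * (ν ^ 2 * ((K * a) * ∑ x ∈ X, y x ^ 2)) := by
            apply mul_le_mul_of_nonneg_left _ (by positivity)
            apply mul_le_mul_of_nonneg_left _ (by positivity)
            exact le_trans hcs (mul_le_mul_of_nonneg_right hX hs0)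
        _ = K * ((a ^ 2 * ∑ x ∈ X, y x ^ 2) * (a * ν ^ 2)) := by ring
        _ ≤ K * (((C1 * a ^ j * L) * a ^ j) * L) := by
            apply mul_le_mul_of_nonneg_left _ hK0
            exact mul_le_mul hy2' hLnu (by positivity) (by positivity)
        _ = (K * C1) * (a ^ j * L) ^ 2 := by ring
    have hm : (K * C1) * (a ^ j * L) ^ 2 ≤ ((1 + K * C1) / 2 * (a ^ j * L)) ^ 2 := by
      rw [mul_pow ((1 + K * C1) / 2)]
      apply mul_le_mul_of_nonneg_right _ (sq_nonneg _)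
      nlinarith [sq_nonneg (1 - K * C1)]
    exact abs_le_of_sq_le_sq' (le_trans hq hm) (by positivity) |>.2
  -- third term
  have b3 : a * (|cc p j| * a ^ j * ν ^ 2) ≤ ((j : ℝ) + 1) ^ j * (a ^ j * L) := by
    calc a * (|cc p j| * a ^ j * ν ^ 2) = |cc p j| * (a ^ j * (a * ν ^ 2)) := by ring
      _ ≤ ((j : ℝ) + 1) ^ j * (a ^ j * L) := by
          apply mul_le_mul hcc _ (by positivity) (by positivity)
          exact mul_le_mul_of_nonneg_left hLnu haj.le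
  -- the absolute value
  have habs : |((j : ℝ) + 1) * ∑ x ∈ X, y x * tt X R a p x - (j : ℝ) * ν * ∑ x ∈ X, y x -
      (j : ℝ) * cc p j * a ^ j * ν ^ 2 + ∑ f ∈ tp X R (j + 1), ov X R f| ≤
      ((j : ℝ) + 1) * |∑ x ∈ X, y x * tt X R a p x| + (j : ℝ) * (|ν| * |∑ x ∈ X, y x|) +
      (j : ℝ) * (|cc p j| * a ^ j * ν ^ 2) + ∑ f ∈ tp X R (j + 1), ov X R f := by
    have hj0 : (0 : ℝ) ≤ j := Nat.cast_nonneg j
    have t1 := abs_add_le (((j : ℝ) + 1) * ∑ x ∈ X, y x * tt X R a p x -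
      (j : ℝ) * ν * ∑ x ∈ X, y x - (j : ℝ) * cc p j * a ^ j * ν ^ 2)
      (∑ f ∈ tp X R (j + 1), ov X R f)
    have t2 := abs_sub (((j : ℝ) + 1) * ∑ x ∈ X, y x * tt X R a p x -
      (j : ℝ) * ν * ∑ x ∈ X, y x) ((j : ℝ) * cc p j * a ^ j * ν ^ 2)
    have t3 := abs_sub (((j : ℝ) + 1) * ∑ x ∈ X, y x * tt X R a p x)
      ((j : ℝ) * ν * ∑ x ∈ X, y x)
    have u1 : |((j : ℝ) + 1) * ∑ x ∈ X, y x * tt X R a p x| =
        ((j : ℝ) + 1) * |∑ x ∈ X, y x * tt X R a p x| := by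
      rw [abs_mul, abs_of_nonneg (by positivity)]
    have u2 : |(j : ℝ) * ν * ∑ x ∈ X, y x| = (j : ℝ) * (|ν| * |∑ x ∈ X, y x|) := by
      rw [abs_mul, abs_mul, abs_of_nonneg hj0]; ring
    have u3 : |(j : ℝ) * cc p j * a ^ j * ν ^ 2| = (j : ℝ) * (|cc p j| * a ^ j * ν ^ 2) := by
      rw [abs_mul, abs_mul, abs_mul, abs_of_nonneg hj0, abs_of_pos haj,
        abs_of_nonneg (sq_nonneg ν)]
      ring
    rw [abs_of_nonneg hov0] at t1
    linarith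
  have hj0 : (0 : ℝ) ≤ j := Nat.cast_nonneg j
  calc a * |((j : ℝ) + 1) * ∑ x ∈ X, y x * tt X R a p x - (j : ℝ) * ν * ∑ x ∈ X, y x -
      (j : ℝ) * cc p j * a ^ j * ν ^ 2 + ∑ f ∈ tp X R (j + 1), ov X R f|
      ≤ a * (((j : ℝ) + 1) * |∑ x ∈ X, y x * tt X R a p x| + (j : ℝ) * (|ν| * |∑ x ∈ X, y x|) +
      (j : ℝ) * (|cc p j| * a ^ j * ν ^ 2) + ∑ f ∈ tp X R (j + 1), ov X R f) :=
        mul_le_mul_of_nonneg_left habs ha.le
    _ = ((j : ℝ) + 1) * (a * |∑ x ∈ X, y x * tt X R a p x|) +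
        (j : ℝ) * (a * (|ν| * |∑ x ∈ X, y x|)) +
        (j : ℝ) * (a * (|cc p j| * a ^ j * ν ^ 2)) +
        a * ∑ f ∈ tp X R (j + 1), ov X R f := by ring
    _ ≤ ((j : ℝ) + 1) * ((1 + C1) / 2 * (a ^ j * L)) + (j : ℝ) * ((1 + K * C1) / 2 * (a ^ j * L)) +
        (j : ℝ) * (((j : ℝ) + 1) ^ j * (a ^ j * L)) +
        ((j : ℝ) + 1) ^ 2 * K ^ j * a ^ j * L := by
        have c1 := mul_le_mul_of_nonneg_left b1 (show (0 : ℝ) ≤ (j : ℝ) + 1 by positivity)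
        have c2 := mul_le_mul_of_nonneg_left b2 hj0
        have c3 := mul_le_mul_of_nonneg_left b3 hj0
        linarith
    _ = _ := by ring

end Pool.Agent.DCL
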