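import Pool.Agent.DCL.Core
import Pool.Agent.DCS.Bridge
import Pool.Agent.DCS.Fin

/-!
# DCL-Fin: the final theorem

For all `m ≥ (1 + ε) k`: `1 - π(K_m^k) ≥ (1 + c D) / C(m - 1, k - 1)` whenever `K / k ≤ D` and `D` is at most the
distance of `m / (m - k)` from the integers `≥ 2`.
-/

namespace Pool.Agent.DCL

open Pool.Agent.Helper1.Turan Pool.Agent.Helper2.DC Pool.Agent.DCS

/-- bounded ratios -/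
theorem lin_bounded (ε α : ℝ) (hε : 0 < ε) (hα : 1 ≤ α) : ∃ c K : ℝ, 0 < c ∧ 0 < K ∧
    ∀ k m : ℕ, 3 ≤ k → (1 + ε) * (k : ℝ) ≤ (m : ℝ) → (m : ℝ) ≤ α * (k : ℝ) → ∀ D : ℝ,
      K / (k : ℝ) ≤ D → (∀ q : ℕ, 2 ≤ q → D ≤ |(m : ℝ) / ((m : ℝ) - (k : ℝ)) - (q : ℝ)|) →
      (1 + c * D) / ((m - 1).choose (k - 1) : ℝ) ≤ 1 - turanDensity k m := by
  sorry

/-- all ratios above `1 + ε` -/
theorem final_lin (ε : ℝ) (hε : 0 < ε) : ∃ c K : ℝ, 0 < c ∧ 0 < K ∧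
    ∀ k m : ℕ, 3 ≤ k → (1 + ε) * (k : ℝ) ≤ (m : ℝ) → ∀ D : ℝ,
      K / (k : ℝ) ≤ D → (∀ q : ℕ, 2 ≤ q → D ≤ |(m : ℝ) / ((m : ℝ) - (k : ℝ)) - (q : ℝ)|) →
      (1 + c * D) / ((m - 1).choose (k - 1) : ℝ) ≤ 1 - turanDensity k m := by
  sorry

end Pool.Agent.DCL
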