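import Pool.Agent.DCL.FlA

/-!
# DCL-Fl: the number of the tuples which begin with `x`, in the sense of the second moment

Induction on `j`: `Ff (j+1) x - cc (j+1) a ^ (j+1) = (1 - (j+1) p) a (Ff j x - cc j a ^ j) + err x`, and the
second moment of the error is bounded by `step_sq`.
-/

open Finset

namespace Pool.Agent.DCL

open Pool.Agent.DCS (nb nn)

/-- the number of the tuples which begin with `x` -/
theorem Ff_sq (j : ℕ) (K : ℝ) (hK : 1 ≤ K) : ∃ C : ℝ, 0 ≤ C ∧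
    ∀ (V : Type) [Fintype V] [DecidableEq V] (X : Finset V) (R : V → V → Prop) (a p : ℝ),
      (∀ x y, R x y → R y x) → 0 < a → 0 ≤ p → p ≤ 1 → (X.card : ℝ) ≤ K * a →
      a ^ 2 * ∑ x ∈ X, (Ff X R j x - cc p j * a ^ j) ^ 2 ≤ C * a ^ (2 * j) * Li X R a p := by
  induction j with
  | zero =>
    refine ⟨0, le_rfl, ?_⟩
    intro V _ _ X R a p hR ha hp0 hp1 hX
    have h : ∑ x ∈ X, (Ff X R 0 x - cc p 0 * a ^ 0) ^ 2 = 0 := by
      refine Finset.sum_eq_zero fun x hx => ?_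
      rw [Ff_zero R hx]
      simp [cc]
    rw [h]
    simp
  | succ j ih =>
    obtain ⟨C, hC0, hC⟩ := ih
    refine ⟨2 * ((j : ℝ) + 1) ^ 2 * C + 6 * ((j : ℝ) + 1) ^ 3 * K ^ (2 * j + 1), by positivity, ?_⟩
    intro V _ _ X R a p hR ha hp0 hp1 hX
    have ih1 := hC V X R a p hR ha hp0 hp1 hX
    have hst := step_sq (X := X) (R := R) hR (p := p) ha hK hX j
    set er : V → ℝ := fun x => ∑ f ∈ (tp X R (j + 1)).filter (fun f => f 0 = x),
        (∑ i, tt X R a p (f i) - (j : ℝ) * ((X.card : ℝ) - a) + ov X R f) with her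
    have hst' : ∑ x ∈ X, er x ^ 2 ≤
        3 * ((j : ℝ) + 1) ^ 3 * K ^ (2 * j + 1) * a ^ (2 * j) * Li X R a p := hst
    have hj : (0 : ℝ) ≤ (j : ℝ) := Nat.cast_nonneg j
    have hq : (1 - ((j : ℝ) + 1) * p) ^ 2 ≤ ((j : ℝ) + 1) ^ 2 := by
      rw [sq_le_sq]
      rw [abs_of_nonneg (by positivity : (0 : ℝ) ≤ (j : ℝ) + 1), abs_le]
      constructor
      · nlinarith [mul_le_mul_of_nonneg_left hp1 (by positivity : (0 : ℝ) ≤ (j : ℝ) + 1)]
      · nlinarith [mul_nonneg (by positivity : (0 : ℝ) ≤ (j : ℝ) + 1) hp0]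
    have hrec : ∀ x ∈ X, (Ff X R (j + 1) x - cc p (j + 1) * a ^ (j + 1)) ^ 2 ≤
        2 * ((j : ℝ) + 1) ^ 2 * (a ^ 2 * (Ff X R j x - cc p j * a ^ j) ^ 2) + 2 * er x ^ 2 := by
      intro x _
      have h1 : Ff X R (j + 1) x = (1 - ((j : ℝ) + 1) * p) * a * Ff X R j x + er x := by
        rw [Ff_succ hR j x]
        have h2 : ∀ f ∈ (tp X R (j + 1)).filter (fun f => f 0 = x), ((cm X R f).card : ℝ) =
            (1 - ((j : ℝ) + 1) * p) * a +
              (∑ i, tt X R a p (f i) - (j : ℝ) * ((X.card : ℝ) - a) + ov X R f) :=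
          fun f _ => cm_eq X R a p f
        rw [Finset.sum_congr rfl h2, Finset.sum_add_distrib, Finset.sum_const, nsmul_eq_mul, Ff,
          her]
        ring
      have h2 : cc p (j + 1) = cc p j * (1 - ((j : ℝ) + 1) * p) := by
        rw [cc, Finset.prod_range_succ]
        rfl
      have h3 : Ff X R (j + 1) x - cc p (j + 1) * a ^ (j + 1) =
          (1 - ((j : ℝ) + 1) * p) * (a * (Ff X R j x - cc p j * a ^ j)) + er x := by
        rw [h1, h2, pow_succ]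
        ring
      rw [h3]
      have h4 : ((1 - ((j : ℝ) + 1) * p) * (a * (Ff X R j x - cc p j * a ^ j)) + er x) ^ 2 ≤
          2 * ((1 - ((j : ℝ) + 1) * p) ^ 2 * (a * (Ff X R j x - cc p j * a ^ j)) ^ 2) +
            2 * er x ^ 2 := by
        nlinarith [sq_nonneg ((1 - ((j : ℝ) + 1) * p) * (a * (Ff X R j x - cc p j * a ^ j)) - er x)]
      have h5 := mul_le_mul_of_nonneg_right hq (sq_nonneg (a * (Ff X R j x - cc p j * a ^ j)))
      have h6 : (a * (Ff X R j x - cc p j * a ^ j)) ^ 2 =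
          a ^ 2 * (Ff X R j x - cc p j * a ^ j) ^ 2 := by ring
      rw [h6] at h4 h5
      linarith
    have hsum := Finset.sum_le_sum hrec
    rw [Finset.sum_add_distrib, ← Finset.mul_sum, ← Finset.mul_sum, ← Finset.mul_sum] at hsum
    have hL : 0 ≤ Li X R a p := Li_nonneg ha.le
    have ha2 : 0 ≤ a ^ 2 := sq_nonneg a
    calc a ^ 2 * ∑ x ∈ X, (Ff X R (j + 1) x - cc p (j + 1) * a ^ (j + 1)) ^ 2
        ≤ a ^ 2 * (2 * ((j : ℝ) + 1) ^ 2 * (a ^ 2 * ∑ x ∈ X, (Ff X R j x - cc p j * a ^ j) ^ 2) +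
            2 * ∑ x ∈ X, er x ^ 2) := mul_le_mul_of_nonneg_left hsum ha2
      _ ≤ a ^ 2 * (2 * ((j : ℝ) + 1) ^ 2 * (C * a ^ (2 * j) * Li X R a p) +
            2 * (3 * ((j : ℝ) + 1) ^ 3 * K ^ (2 * j + 1) * a ^ (2 * j) * Li X R a p)) := by
          refine mul_le_mul_of_nonneg_left (add_le_add ?_ ?_) ha2
          · exact mul_le_mul_of_nonneg_left ih1 (by positivity)
          · exact mul_le_mul_of_nonneg_left hst' (by norm_num)
      _ = (2 * ((j : ℝ) + 1) ^ 2 * C + 6 * ((j : ℝ) + 1) ^ 3 * K ^ (2 * j + 1)) *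
            a ^ (2 * (j + 1)) * Li X R a p := by
          rw [show 2 * (j + 1) = 2 * j + 2 by ring, pow_add a (2 * j) 2]
          ring

end Pool.Agent.DCL
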