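import Pool.Agent.DCL.Tup

/-!
# DCL-Ovl: the number of the points by which a tuple can be extended

`|cm f| = ∑ i |nn (f i)| - (j - 1) |X| + ov f`, where `ov f` is at least `0` and at most the sum over the pairs of
the number of the common neighbours. With `A i = X \ nn X R (f i)` the set `X \ cm X R f` is the union of the `A i`,
so that `ov f = ∑ |A i| - |⋃ A i|` (`Ovl_eq`), and `A i ∩ A i' = nb (f i) ∩ nb (f i')` for `i ≠ i'`.
-/

set_option linter.unusedSectionVars false

open Finset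

namespace Pool.Agent.DCL

open Pool.Agent.DCS (nb nn)

variable {V : Type} [Fintype V] [DecidableEq V]

/-- the overlap of the neighbourhoods -/
noncomputable def ov (X : Finset V) (R : V → V → Prop) {j : ℕ} (f : Fin j → V) : ℝ :=
  ((cm X R f).card : ℝ) - (∑ i, ((nn X R (f i)).card : ℝ) - ((j : ℝ) - 1) * (X.card : ℝ))

/-- the number of the cherries -/
noncomputable def ch (X : Finset V) (R : V → V → Prop) : ℝ :=
  ∑ x ∈ X, ∑ y ∈ nn X R x, (((nb X R x) ∩ (nb X R y)).card : ℝ)

theorem ch_nonneg (X : Finset V) (R : V → V → Prop) : 0 ≤ ch X R :=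
  sum_nonneg fun _ _ => sum_nonneg fun _ _ => Nat.cast_nonneg _

private theorem Ovl_nn {X : Finset V} {R : V → V → Prop} {x y : V} :
    y ∈ nn X R x ↔ y ∈ X ∧ y ≠ x ∧ ¬ R x y := by
  classical
  unfold nn
  rw [mem_filter]

private theorem Ovl_nb {X : Finset V} {R : V → V → Prop} {x y : V} :
    y ∈ nb X R x ↔ y ∈ X ∧ y ≠ x ∧ R x y := by
  classical
  unfold nb
  rw [mem_filter]

private theorem Ovl_cm {X : Finset V} {R : V → V → Prop} {j : ℕ} {f : Fin j → V} {y : V} :
    y ∈ cm X R f ↔ y ∈ X ∧ ∀ i, y ∈ nn X R (f i) := by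
  unfold cm
  rw [mem_filter]

private theorem Ovl_tp {X : Finset V} {R : V → V → Prop} {j : ℕ} {f : Fin j → V} :
    f ∈ tp X R j ↔ (∀ i, f i ∈ X) ∧ ∀ i i', i ≠ i' → f i' ∈ nn X R (f i) := by
  unfold tp
  rw [mem_filter]
  exact and_iff_right (mem_univ _)

/-- the overlap as a difference of cardinalities -/
private theorem Ovl_eq (X : Finset V) (R : V → V → Prop) {j : ℕ} (f : Fin j → V) :
    ov X R f = ∑ i, ((X \ nn X R (f i)).card : ℝ) -
      ((univ.biUnion fun i => X \ nn X R (f i)).card : ℝ) := by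
  have h1 : ∀ i, ((X \ nn X R (f i)).card : ℝ) = (X.card : ℝ) - ((nn X R (f i)).card : ℝ) := by
    intro i
    have hs : nn X R (f i) ⊆ X := fun y hy => (Ovl_nn.1 hy).1
    have h := card_sdiff_add_card_eq_card hs
    have h' : ((X \ nn X R (f i)).card : ℝ) + ((nn X R (f i)).card : ℝ) = (X.card : ℝ) := by
      exact_mod_cast h
    linarith
  have h2 : ((univ.biUnion fun i => X \ nn X R (f i)).card : ℝ) + ((cm X R f).card : ℝ) =
      (X.card : ℝ) := by
    have hs : cm X R f ⊆ X := fun y hy => (Ovl_cm.1 hy).1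
    have he : (univ.biUnion fun i => X \ nn X R (f i)) = X \ cm X R f := by
      ext y
      simp only [mem_biUnion, mem_univ, true_and, mem_sdiff, Ovl_cm]
      constructor
      · rintro ⟨i, hy, hn⟩
        exact ⟨hy, fun h => hn (h.2 i)⟩
      · rintro ⟨hy, hn⟩
        by_contra hcon
        push Not at hcon
        exact hn ⟨hy, fun i => by
          by_contra h
          exact h (hcon i hy)⟩
    rw [he]
    have h := card_sdiff_add_card_eq_card hs
    exact_mod_cast h
  unfold ov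
  rw [sum_congr rfl fun i _ => h1 i, sum_sub_distrib, sum_const, card_univ, Fintype.card_fin,
    nsmul_eq_mul]
  linarith

/-- union bound -/
theorem ov_nonneg {X : Finset V} {R : V → V → Prop} {j : ℕ} {f : Fin j → V}
    (hf : f ∈ tp X R j) : 0 ≤ ov X R f := by
  have _ := hf
  rw [Ovl_eq, sub_nonneg]
  exact_mod_cast card_biUnion_le

/-- the second Bonferroni inequality, for finite sets -/
private theorem Ovl_bonf {j : ℕ} (A : Fin j → Finset V) :
    ∑ i, ((A i).card : ℝ) ≤ ((univ.biUnion A).card : ℝ) +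
      ∑ i, ∑ i' ∈ univ.erase i, ((A i ∩ A i').card : ℝ) := by
  -- the points of `A i` which are in no other set
  let B : Fin j → Finset V := fun i => A i \ (univ.erase i).biUnion A
  have h1 : ∀ i, ((A i).card : ℝ) ≤ ((B i).card : ℝ) +
      ∑ i' ∈ univ.erase i, ((A i ∩ A i').card : ℝ) := by
    intro i
    have hs : A i ⊆ B i ∪ (univ.erase i).biUnion fun i' => A i ∩ A i' := by
      intro y hy
      by_cases h : y ∈ (univ.erase i).biUnion A
      · obtain ⟨i', hi', hy'⟩ := mem_biUnion.1 h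
        exact mem_union_right _ (mem_biUnion.2 ⟨i', hi', mem_inter.2 ⟨hy, hy'⟩⟩)
      · exact mem_union_left _ (mem_sdiff.2 ⟨hy, h⟩)
    have h2 : (A i).card ≤ (B i).card + ∑ i' ∈ univ.erase i, (A i ∩ A i').card :=
      (card_le_card hs).trans ((card_union_le _ _).trans
        (Nat.add_le_add_left card_biUnion_le _))
    exact_mod_cast h2
  have h3 : ∑ i, ((B i).card : ℝ) ≤ ((univ.biUnion A).card : ℝ) := by
    have hd : ∀ i ∈ (univ : Finset (Fin j)), ∀ i' ∈ (univ : Finset (Fin j)), i ≠ i' →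
        Disjoint (B i) (B i') := by
      intro i _ i' _ hne
      rw [disjoint_left]
      intro y hy hy'
      exact (mem_sdiff.1 hy).2 (mem_biUnion.2 ⟨i', mem_erase.2 ⟨hne.symm, mem_univ _⟩,
        (mem_sdiff.1 hy').1⟩)
    have h4 : (univ.biUnion B).card = ∑ i, (B i).card := card_biUnion hd
    have h5 : (univ.biUnion B).card ≤ (univ.biUnion A).card := by
      refine card_le_card fun y hy => ?_
      obtain ⟨i, hi, hy'⟩ := mem_biUnion.1 hy
      exact mem_biUnion.2 ⟨i, hi, (mem_sdiff.1 hy').1⟩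
    rw [h4] at h5
    exact_mod_cast h5
  calc ∑ i, ((A i).card : ℝ) ≤ ∑ i, (((B i).card : ℝ) +
        ∑ i' ∈ univ.erase i, ((A i ∩ A i').card : ℝ)) := sum_le_sum fun i _ => h1 i
    _ = ∑ i, ((B i).card : ℝ) + ∑ i, ∑ i' ∈ univ.erase i, ((A i ∩ A i').card : ℝ) :=
        sum_add_distrib
    _ ≤ _ := by linarith

/-- the second Bonferroni inequality -/
theorem ov_le_pairs {X : Finset V} {R : V → V → Prop} (hR : ∀ x y, R x y → R y x) {j : ℕ}
    {f : Fin j → V} (hf : f ∈ tp X R j) :
    ov X R f ≤ ∑ i, ∑ i' ∈ univ.erase i, (((nb X R (f i)) ∩ (nb X R (f i'))).card : ℝ) := by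
  have _ := hR
  have h1 := Ovl_bonf fun i => X \ nn X R (f i)
  have h2 : ∀ i, ∀ i' ∈ univ.erase i, (((X \ nn X R (f i)) ∩ (X \ nn X R (f i'))).card : ℝ) =
      (((nb X R (f i)) ∩ (nb X R (f i'))).card : ℝ) := by
    intro i i' hi'
    have hne : i ≠ i' := (ne_of_mem_erase hi').symm
    obtain ⟨-, hf2⟩ := Ovl_tp.1 hf
    have a1 := Ovl_nn.1 (hf2 i i' hne)
    have a2 := Ovl_nn.1 (hf2 i' i hne.symm)
    congr 2
    ext y
    simp only [mem_inter, mem_sdiff, Ovl_nn, Ovl_nb]
    constructor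
    · rintro ⟨⟨hy, h3⟩, -, h4⟩
      have h5 : y ≠ f i := by
        rintro rfl
        exact h4 a2
      have h6 : y ≠ f i' := by
        rintro rfl
        exact h3 a1
      refine ⟨⟨hy, h5, ?_⟩, hy, h6, ?_⟩
      · by_contra h7
        exact h3 ⟨hy, h5, h7⟩
      · by_contra h7
        exact h4 ⟨hy, h6, h7⟩
    · rintro ⟨⟨hy, h5, h6⟩, -, h7, h8⟩
      exact ⟨⟨hy, fun h => h.2.2 h6⟩, hy, fun h => h.2.2 h8⟩
  rw [Ovl_eq]
  rw [sum_congr rfl fun i _ => sum_congr rfl fun i' hi' => h2 i i' hi'] at h1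
  linarith

theorem ov_le {X : Finset V} {R : V → V → Prop} {j : ℕ} (f : Fin j → V) :
    ov X R f ≤ (j : ℝ) * (X.card : ℝ) := by
  have h1 : ((cm X R f).card : ℝ) ≤ (X.card : ℝ) := by
    exact_mod_cast card_le_card fun y hy => (Ovl_cm.1 hy).1
  have h2 : 0 ≤ ∑ i, ((nn X R (f i)).card : ℝ) := sum_nonneg fun _ _ => Nat.cast_nonneg _
  unfold ov
  linarith

/-- the tuples with two given coordinates -/
private theorem Ovl_fib {X : Finset V} {R : V → V → Prop} {j : ℕ} {i i' : Fin j} (hne : i ≠ i')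
    (x y : V) : (((tp X R j).filter fun f => f i = x ∧ f i' = y).card : ℝ) ≤
      (X.card : ℝ) ^ (j - 2) := by
  let S : Fin j → Finset V := fun a => if a = i then {x} else if a = i' then {y} else X
  have h1 : ((tp X R j).filter fun f => f i = x ∧ f i' = y) ⊆ Fintype.piFinset S := by
    intro f hf
    obtain ⟨hf1, hf2, hf3⟩ := mem_filter.1 hf
    rw [Fintype.mem_piFinset]
    intro a
    change f a ∈ (if a = i then {x} else if a = i' then {y} else X)
    split_ifs with h2 h3
    · rw [h2, hf2, mem_singleton]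
    · rw [h3, hf3, mem_singleton]
    · exact (Ovl_tp.1 hf1).1 a
  have h2 : (Fintype.piFinset S).card = X.card ^ (j - 2) := by
    rw [Fintype.card_piFinset, ← mul_prod_erase univ (fun a => (S a).card) (mem_univ i),
      ← mul_prod_erase (univ.erase i) (fun a => (S a).card)
        (mem_erase.2 ⟨hne.symm, mem_univ i'⟩)]
    have h3 : (S i).card = 1 := by
      change (if i = i then {x} else if i = i' then {y} else X).card = 1
      rw [if_pos rfl, card_singleton]
    have h4 : (S i').card = 1 := by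
      change (if i' = i then {x} else if i' = i' then {y} else X).card = 1
      rw [if_neg hne.symm, if_pos rfl, card_singleton]
    have h5 : ∏ a ∈ (univ.erase i).erase i', (S a).card =
        ∏ a ∈ (univ.erase i).erase i', X.card := by
      refine prod_congr rfl fun a ha => ?_
      change (if a = i then {x} else if a = i' then {y} else X).card = X.card
      rw [if_neg (ne_of_mem_erase (mem_of_mem_erase ha)), if_neg (ne_of_mem_erase ha)]
    rw [h3, h4, h5, one_mul, one_mul, prod_const,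
      card_erase_of_mem (mem_erase.2 ⟨hne.symm, mem_univ i'⟩), card_erase_of_mem (mem_univ i),
      card_univ, Fintype.card_fin, Nat.sub_sub]
  have h3 := card_le_card h1
  rw [h2] at h3
  exact_mod_cast h3

private theorem Ovl_pair {X : Finset V} {R : V → V → Prop} {j : ℕ} {i i' : Fin j} (hne : i ≠ i') :
    ∑ f ∈ tp X R j, (((nb X R (f i)) ∩ (nb X R (f i'))).card : ℝ) ≤
      (X.card : ℝ) ^ (j - 2) * ch X R := by
  have h1 : ∑ f ∈ tp X R j, (((nb X R (f i)) ∩ (nb X R (f i'))).card : ℝ) =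
      ∑ x ∈ X, ∑ y ∈ nn X R x, ∑ f ∈ (tp X R j).filter (fun f => f i = x ∧ f i' = y),
        (((nb X R x) ∩ (nb X R y)).card : ℝ) := by
    rw [← sum_fiberwise_of_maps_to (g := fun f : Fin j → V => f i)
      (fun f hf => (Ovl_tp.1 hf).1 i)]
    refine sum_congr rfl fun x _ => ?_
    rw [← sum_fiberwise_of_maps_to (t := nn X R x) (g := fun f : Fin j → V => f i')
      (fun f hf => by
        obtain ⟨hf1, hf2⟩ := mem_filter.1 hf
        rw [← hf2]
        exact (Ovl_tp.1 hf1).2 i i' hne)]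
    refine sum_congr rfl fun y _ => ?_
    rw [filter_filter]
    refine sum_congr rfl fun f hf => ?_
    obtain ⟨-, hf1, hf2⟩ := mem_filter.1 hf
    rw [hf1, hf2]
  rw [h1]
  unfold ch
  rw [mul_sum]
  refine sum_le_sum fun x _ => ?_
  rw [mul_sum]
  refine sum_le_sum fun y _ => ?_
  rw [sum_const, nsmul_eq_mul]
  exact mul_le_mul_of_nonneg_right (Ovl_fib hne x y) (Nat.cast_nonneg _)

/-- the sum over the tuples -/
theorem ov_sum {X : Finset V} {R : V → V → Prop} (hR : ∀ x y, R x y → R y x) (j : ℕ) :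
    ∑ f ∈ tp X R j, ov X R f ≤ (j : ℝ) ^ 2 * (X.card : ℝ) ^ (j - 2) * ch X R := by
  have hc : 0 ≤ (X.card : ℝ) ^ (j - 2) * ch X R :=
    mul_nonneg (pow_nonneg (Nat.cast_nonneg _) _) (ch_nonneg X R)
  calc ∑ f ∈ tp X R j, ov X R f
      ≤ ∑ f ∈ tp X R j, ∑ i, ∑ i' ∈ univ.erase i,
          (((nb X R (f i)) ∩ (nb X R (f i'))).card : ℝ) := sum_le_sum fun f hf => ov_le_pairs hR hf
    _ = ∑ i, ∑ i' ∈ univ.erase i, ∑ f ∈ tp X R j,
          (((nb X R (f i)) ∩ (nb X R (f i'))).card : ℝ) := by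
        rw [sum_comm]
        exact sum_congr rfl fun i _ => sum_comm
    _ ≤ ∑ i : Fin j, ∑ i' ∈ univ.erase i, (X.card : ℝ) ^ (j - 2) * ch X R :=
        sum_le_sum fun i _ => sum_le_sum fun i' hi' => Ovl_pair (ne_of_mem_erase hi').symm
    _ ≤ ∑ i : Fin j, (j : ℝ) * ((X.card : ℝ) ^ (j - 2) * ch X R) := by
        refine sum_le_sum fun i _ => ?_
        rw [sum_const, nsmul_eq_mul]
        refine mul_le_mul_of_nonneg_right ?_ hc
        have h := card_le_card (erase_subset i (univ : Finset (Fin j)))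
        rw [card_univ, Fintype.card_fin] at h
        exact_mod_cast h
    _ = (j : ℝ) ^ 2 * (X.card : ℝ) ^ (j - 2) * ch X R := by
        rw [sum_const, card_univ, Fintype.card_fin, nsmul_eq_mul]
        ring

end Pool.Agent.DCL
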