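import Pool.Agent.DCL.Tup0

/-!
# DCL-TupB: tuples of pairwise non adjacent points, the first coordinate

The set `tp` is invariant under permutations of the coordinates, the sum of `g (f 0)` is a sum over the first
coordinate, and the numbers of tuples are at most powers of `|X|`.
-/

set_option linter.unusedSectionVars false

open Finset

namespace Pool.Agent.DCL

open Pool.Agent.DCS (nb nn)

variable {V : Type} [Fintype V] [DecidableEq V]

private theorem tupB_mem {X : Finset V} {R : V → V → Prop} {j : ℕ} {f : Fin j → V} :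
    f ∈ tp X R j ↔ (∀ i, f i ∈ X) ∧ ∀ i i', i ≠ i' → f i' ∈ nn X R (f i) := by
  unfold tp
  rw [Finset.mem_filter]
  exact ⟨fun h => h.2, fun h => ⟨Finset.mem_univ _, h⟩⟩

/-- the coordinates play the same role -/
theorem sum_coord {X : Finset V} {R : V → V → Prop} (j : ℕ)
    (t : V → ℝ) (i : Fin (j + 1)) :
    ∑ f ∈ tp X R (j + 1), t (f i) = ∑ f ∈ tp X R (j + 1), t (f 0) := by
  refine Finset.sum_equiv ((Equiv.swap 0 i).arrowCongr (Equiv.refl V)) (fun f => ?_) (fun f _ => ?_)
  · rw [tupB_mem, tupB_mem]
    have h : ∀ l, ((Equiv.swap 0 i).arrowCongr (Equiv.refl V)) f l = f (Equiv.swap 0 i l) := by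
      intro l
      simp [Equiv.arrowCongr]
    simp only [h]
    constructor
    · rintro ⟨h1, h2⟩
      exact ⟨fun l => h1 _, fun l l' hl => h2 _ _ fun he => hl ((Equiv.swap 0 i).injective he)⟩
    · rintro ⟨h1, h2⟩
      refine ⟨fun l => ?_, fun l l' hl => ?_⟩
      · have := h1 (Equiv.swap 0 i l)
        rwa [Equiv.swap_apply_self] at this
      · have := h2 (Equiv.swap 0 i l) (Equiv.swap 0 i l')
          fun he => hl ((Equiv.swap 0 i).injective he)
        rwa [Equiv.swap_apply_self, Equiv.swap_apply_self] at this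
  · simp [Equiv.arrowCongr]

theorem sum_first (X : Finset V) (R : V → V → Prop) (j : ℕ) (g : V → ℝ) :
    ∑ f ∈ tp X R (j + 1), g (f 0) = ∑ x ∈ X, Ff X R j x * g x := by
  rw [← Finset.sum_fiberwise_of_maps_to (t := X) (g := fun f : Fin (j + 1) → V => f 0)
    (fun f hf => (tupB_mem.1 hf).1 0) (fun f => g (f 0))]
  refine Finset.sum_congr rfl fun x _ => ?_
  unfold Ff
  rw [← nsmul_eq_mul, ← Finset.sum_const]
  refine Finset.sum_congr rfl fun f hf => ?_
  rw [(Finset.mem_filter.1 hf).2]

theorem Ff_zero {X : Finset V} (R : V → V → Prop) {x : V} (hx : x ∈ X) : Ff X R 0 x = 1 := by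
  unfold Ff
  have h : (tp X R (0 + 1)).filter (fun f => f 0 = x) = {fun _ => x} := by
    ext f
    rw [Finset.mem_filter, Finset.mem_singleton, tupB_mem]
    constructor
    · rintro ⟨_, h⟩
      funext l
      have hl : l = 0 := Fin.ext (by have := l.isLt; simp only [Fin.val_zero]; omega)
      rw [hl, h]
    · rintro rfl
      exact ⟨⟨fun _ => hx, fun l l' hl => absurd (Fin.ext (by
        have h1 := l.isLt
        have h2 := l'.isLt
        omega)) hl⟩, rfl⟩
  rw [h, Finset.card_singleton, Nat.cast_one]

/-- the other coordinates are arbitrary points of `X` -/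
theorem Ff_le (X : Finset V) (R : V → V → Prop) (j : ℕ) (x : V) :
    Ff X R j x ≤ (X.card : ℝ) ^ j := by
  unfold Ff
  have h : ((tp X R (j + 1)).filter (fun f => f 0 = x)).card ≤
      (Fintype.piFinset (fun _ : Fin j => X)).card := by
    refine Finset.card_le_card_of_injOn (fun f => Fin.tail f) ?_ ?_
    · intro f hf
      rw [Finset.mem_coe, Finset.mem_filter] at hf
      rw [Finset.mem_coe, Fintype.mem_piFinset]
      exact fun l => (tupB_mem.1 hf.1).1 l.succ
    · intro f hf f' hf' he
      rw [Finset.mem_coe, Finset.mem_filter] at hf hf'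
      rw [← Fin.cons_self_tail f, ← Fin.cons_self_tail f', hf.2, hf'.2]
      exact congrArg _ he
  rw [Fintype.card_piFinset, Finset.prod_const, Finset.card_univ, Fintype.card_fin] at h
  exact_mod_cast h

theorem tp_card_le (X : Finset V) (R : V → V → Prop) (j : ℕ) :
    ((tp X R j).card : ℝ) ≤ (X.card : ℝ) ^ j := by
  have h : (tp X R j).card ≤ (Fintype.piFinset (fun _ : Fin j => X)).card := by
    refine Finset.card_le_card fun f hf => ?_
    rw [Fintype.mem_piFinset]
    exact (tupB_mem.1 hf).1
  rw [Fintype.card_piFinset, Finset.prod_const, Finset.card_univ, Fintype.card_fin] at h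
  exact_mod_cast h

end Pool.Agent.DCL
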