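import Pool.Agent.DCS.Gra

/-!
# DCL-Tup0: tuples of pairwise non adjacent points

`tp X R j` is the set of the `j`-tuples of pairwise different and non adjacent points of `X`, `cm X R f` the set of
the points by which the tuple `f` can be extended, `Ff X R j x` the number of the `(j+1)`-tuples which begin
with `x`.
-/

open Finset

namespace Pool.Agent.DCL

open Pool.Agent.DCS (nb nn)

variable {V : Type} [Fintype V] [DecidableEq V]

/-- the points of `X` which are different from all the `f i` and not adjacent to them -/
noncomputable def cm (X : Finset V) (R : V → V → Prop) {j : ℕ} (f : Fin j → V) : Finset V :=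
  open Classical in X.filter fun y => ∀ i, y ∈ nn X R (f i)

/-- the tuples of pairwise different, non adjacent points of `X` -/
noncomputable def tp (X : Finset V) (R : V → V → Prop) (j : ℕ) : Finset (Fin j → V) :=
  open Classical in univ.filter fun f => (∀ i, f i ∈ X) ∧ ∀ i i', i ≠ i' → f i' ∈ nn X R (f i)

/-- the number of the `(j+1)`-tuples which begin with `x` -/
noncomputable def Ff (X : Finset V) (R : V → V → Prop) (j : ℕ) (x : V) : ℝ :=
  (((tp X R (j + 1)).filter (fun f => f 0 = x)).card : ℝ)

theorem Ff_nonneg (X : Finset V) (R : V → V → Prop) (j : ℕ) (x : V) : 0 ≤ Ff X R j x :=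
  Nat.cast_nonneg _

end Pool.Agent.DCL
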