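import Pool.Agent.DCL.Tup0

/-!
# DCL-TupA: tuples of pairwise non adjacent points, the last coordinate

Plan. `sum_snoc`: `Fin.snocEquiv` (or `Fin.snoc` and `Fin.init`), membership: `Fin.snoc f y ∈ tp X R (j + 1)` iff
`f ∈ tp X R j` and `y ∈ cm X R f` (`cm ⊆ X`; symmetry of `R` gives `f i ∈ nn X R y`). `card_succ`: `g = 1`.
`Ff_succ`: `g f = if f 0 = x then 1 else 0`, `(Fin.snoc f y) 0 = f 0` for `f : Fin (j + 1) → V`.
`DCS.mem_nb`, `DCS.mem_nn` are in `DCS/Rel.lean` (or unfold with `classical`).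
-/

set_option linter.unusedSectionVars false

open Finset

namespace Pool.Agent.DCL

open Pool.Agent.DCS (nb nn)

variable {V : Type} [Fintype V] [DecidableEq V]

private theorem tupA_nn {X : Finset V} {R : V → V → Prop} {x y : V} :
    y ∈ nn X R x ↔ y ∈ X ∧ y ≠ x ∧ ¬ R x y := by
  classical
  unfold nn
  rw [mem_filter]

private theorem tupA_tp {X : Finset V} {R : V → V → Prop} {j : ℕ} {f : Fin j → V} :
    f ∈ tp X R j ↔ (∀ i, f i ∈ X) ∧ ∀ i i', i ≠ i' → f i' ∈ nn X R (f i) := by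
  classical
  unfold tp
  rw [mem_filter]
  exact ⟨fun h => h.2, fun h => ⟨mem_univ _, h⟩⟩

private theorem tupA_cm {X : Finset V} {R : V → V → Prop} {j : ℕ} {f : Fin j → V} {y : V} :
    y ∈ cm X R f ↔ y ∈ X ∧ ∀ i, y ∈ nn X R (f i) := by
  classical
  unfold cm
  rw [mem_filter]

private theorem tupA_snoc {X : Finset V} {R : V → V → Prop} (hR : ∀ x y, R x y → R y x) {j : ℕ}
    {f : Fin j → V} {y : V} (hf : f ∈ tp X R j) (hy : y ∈ cm X R f) :
    (Fin.snoc (α := fun _ => V) f y : Fin (j + 1) → V) ∈ tp X R (j + 1) := by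
  rw [tupA_tp] at hf ⊢
  rw [tupA_cm] at hy
  constructor
  · intro i
    refine Fin.lastCases ?_ (fun k => ?_) i
    · rw [Fin.snoc_last]
      exact hy.1
    · rw [Fin.snoc_castSucc]
      exact hf.1 k
  · intro i i'
    refine Fin.lastCases ?_ (fun k => ?_) i
    · refine Fin.lastCases ?_ (fun k' => ?_) i'
      · intro h
        exact absurd rfl h
      · intro _
        rw [Fin.snoc_last, Fin.snoc_castSucc]
        have h1 := tupA_nn.1 (hy.2 k')
        exact tupA_nn.2 ⟨hf.1 k', fun h => h1.2.1 h.symm, fun h => h1.2.2 (hR _ _ h)⟩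
    · refine Fin.lastCases ?_ (fun k' => ?_) i'
      · intro _
        rw [Fin.snoc_last, Fin.snoc_castSucc]
        exact hy.2 k
      · intro h
        rw [Fin.snoc_castSucc, Fin.snoc_castSucc]
        exact hf.2 k k' fun h' => h (by rw [h'])

theorem sum_snoc {X : Finset V} {R : V → V → Prop} (hR : ∀ x y, R x y → R y x) (j : ℕ)
    (g : (Fin (j + 1) → V) → ℝ) :
    ∑ f ∈ tp X R (j + 1), g f = ∑ f ∈ tp X R j, ∑ y ∈ cm X R f, g (Fin.snoc f y) := by
  classical
  rw [Finset.sum_sigma']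
  refine Finset.sum_bij' (fun f _ => ⟨Fin.init f, f (Fin.last j)⟩)
    (fun p _ => (Fin.snoc (α := fun _ => V) p.1 p.2 : Fin (j + 1) → V)) ?_ ?_ ?_ ?_ ?_
  · intro f hf
    rw [tupA_tp] at hf
    rw [mem_sigma]
    refine ⟨?_, ?_⟩
    · rw [tupA_tp]
      refine ⟨fun i => hf.1 (Fin.castSucc i), fun i i' h => ?_⟩
      exact hf.2 (Fin.castSucc i) (Fin.castSucc i') fun h' => h (Fin.castSucc_injective j h')
    · rw [tupA_cm]
      exact ⟨hf.1 _, fun i => hf.2 (Fin.castSucc i) (Fin.last j) (Fin.castSucc_lt_last i).ne⟩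
  · intro p hp
    rw [mem_sigma] at hp
    exact tupA_snoc hR hp.1 hp.2
  · intro f _
    exact Fin.snoc_init_self f
  · intro p _
    obtain ⟨f, y⟩ := p
    simp only [Fin.init_snoc, Fin.snoc_last]
  · intro f _
    congr 1
    exact (Fin.snoc_init_self f).symm

theorem tp_one (X : Finset V) (R : V → V → Prop) : ((tp X R 1).card : ℝ) = X.card := by
  classical
  have h : (tp X R 1).card = X.card := by
    refine Finset.card_nbij' (fun f => f 0) (fun x _ => x) ?_ ?_ ?_ ?_
    · intro f hf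
      exact (tupA_tp.1 hf).1 0
    · intro x hx
      refine tupA_tp.2 ⟨fun _ => hx, fun i i' h => absurd (Subsingleton.elim i i') h⟩
    · intro f _
      funext i
      rw [Subsingleton.elim i 0]
    · intro x _
      rfl
  rw [h]

theorem card_succ {X : Finset V} {R : V → V → Prop} (hR : ∀ x y, R x y → R y x) (j : ℕ) :
    ((tp X R (j + 1)).card : ℝ) = ∑ f ∈ tp X R j, ((cm X R f).card : ℝ) := by
  have h := sum_snoc (X := X) hR j (fun _ => (1 : ℝ))
  simpa using h

theorem Ff_succ {X : Finset V} {R : V → V → Prop} (hR : ∀ x y, R x y → R y x) (j : ℕ) (x : V) :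
    Ff X R (j + 1) x =
      ∑ f ∈ (tp X R (j + 1)).filter (fun f => f 0 = x), ((cm X R f).card : ℝ) := by
  classical
  unfold Ff
  rw [Finset.card_filter, Nat.cast_sum,
    sum_snoc hR (j + 1) (fun f => (((if f 0 = x then 1 else 0 : ℕ)) : ℝ)), Finset.sum_filter]
  refine Finset.sum_congr rfl fun f _ => ?_
  have h0 : ∀ y : V, (Fin.snoc (α := fun _ => V) f y : Fin (j + 1 + 1) → V) 0 = f 0 := by
    intro y
    have h1 : (0 : Fin (j + 1 + 1)) = Fin.castSucc (0 : Fin (j + 1)) := rfl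
    rw [h1, Fin.snoc_castSucc]
  simp only [h0]
  split_ifs
  · simp
  · simp

end Pool.Agent.DCL
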