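import Pool.Agent.DCL.VarL

/-!
# DCL-TwoL: the sizes of the intersections of two exchange sets, first and second moment, linear in the loss

`|Bw w ∩ Bw w'| = u + u' - v + g` with `g ≥ - (5 e + 3 / m) n`, and the sum of `g` is small because the sum of the
`|Bw w ∩ Bw w'|` is at most `n (k - 1) (k - 2)`.

Plan. `n = |V|`, `δ = k / (s + 3)`, `φ = δ² n`, `c = 5 e + 3 / (s + 3)`, `l = e + 1 / (s + 3)` (so `c ≤ 5 l`),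
`L = (s + 2) (s + 1) N (s + 2)` = number of the triples `(S, w, w')`, `w ≠ w'`; `t = |Bw w ∩ Bw w'| - φ`,
`u = d (S - w) - Av (s+1)`, `u'` the same for `w'`, `v = d (S - w - w') - Av s`.
`t_sum_le`: `DCS.inter_sum_le`, `DCS.phi_le`, `DCS.ext_empty`.
By `DCS.inter_ge` and `Lev.hD`: `g := t - u - u' + v + c n ≥ 0`. `∑ t ≥ ∑ u + ∑ u' - ∑ v - c n L ≥ - ∑ v - c n L`
(`u_sum`: `∑ u = (s+1) Sq (s+1) ≥ 0`), `∑ v ≤ 14 e / δ² n L` (`v_sum`, `sq1_le`, `sq0_le`, `Av (s+1) ≤ n`): `t_sum_ge`.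
`∑ g = ∑ t - 2 (s+1) Sq (s+1) + ∑ v + c n L ≤ (14 e / δ² + c) n L`, `g ≤ 12 n` (`c ≤ 8`), so
`∑ g² ≤ 12 n (14 e / δ² + c) n L`; `t² ≤ 5 (u² + u'² + v² + g² + c² n²)`, `∑ u² ≤ 4 e / δ n² L`, `∑ v² ≤ 8 e / δ² n² L`:
`∑ t² ≤ 5 (184 e / δ² + 20 c) n² L ≤ 1500 / δ² l n² L`.
-/

open Finset Pool.Agent.Helper2.DC

namespace Pool.Agent.DCL

open Pool.Agent.DCS

variable {V : Type} [Fintype V] [DecidableEq V]

/-- the mean is at most `φ = δ² n`, one set `S` -/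
theorem t_sum_le {H : Finset (Finset V)} {k s : ℕ} {e : ℝ} (h : Lev V H k s e) {S : Finset V}
    (hS : S ∈ ind H (s + 2)) :
    ∑ w ∈ S, ∑ w' ∈ S.erase w, (((Bw H S w ∩ Bw H S w').card : ℝ) -
        ((k : ℝ) / ((s : ℝ) + 3)) ^ 2 * (Fintype.card V : ℝ)) ≤ 0 := by
  sorry

/-- the mean is at least `φ - small` -/
theorem t_sum_ge {H : Finset (Finset V)} {k s : ℕ} {e : ℝ} (h : Lev V H k s e) (he1 : e ≤ 1) :
    -(19 / ((k : ℝ) / ((s : ℝ) + 3)) ^ 2 * (e + 1 / ((s : ℝ) + 3)) * (Fintype.card V : ℝ) *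
        (((s : ℝ) + 2) * ((s : ℝ) + 1) * NI H (s + 2))) ≤
      ∑ S ∈ ind H (s + 2), ∑ w ∈ S, ∑ w' ∈ S.erase w, (((Bw H S w ∩ Bw H S w').card : ℝ) -
        ((k : ℝ) / ((s : ℝ) + 3)) ^ 2 * (Fintype.card V : ℝ)) := by
  sorry

/-- the second moment -/
theorem t_sq {H : Finset (Finset V)} {k s : ℕ} {e : ℝ} (h : Lev V H k s e) (he1 : e ≤ 1) :
    ∑ S ∈ ind H (s + 2), ∑ w ∈ S, ∑ w' ∈ S.erase w, (((Bw H S w ∩ Bw H S w').card : ℝ) -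
        ((k : ℝ) / ((s : ℝ) + 3)) ^ 2 * (Fintype.card V : ℝ)) ^ 2 ≤
      1500 / ((k : ℝ) / ((s : ℝ) + 3)) ^ 2 * (e + 1 / ((s : ℝ) + 3)) * (Fintype.card V : ℝ) ^ 2 *
        (((s : ℝ) + 2) * ((s : ℝ) + 1) * NI H (s + 2)) := by
  sorry

end Pool.Agent.DCL
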