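import Pool.Agent.DCS.Two
import Pool.Agent.DCS.Levels

/-!
# DCL-VarL: first and second moments of the number of free vertices after the removal of one or two vertices

All estimates are linear in the loss.

Plan. `sum_ext` (Helper2.DC): `∑ S ∈ ind (s+1), ∑ a ∈ S, f (S.erase a) a = ∑ Q ∈ ind s, ∑ x ∈ ext Q, f Q x`; see the
proofs in `DCS/Var.lean`. `d = |ext|`. `u_sum`: `∑ J d (d - Av) = ∑ J (d - Av)²` as `∑ J (d - Av) = 0`. `u_sq`, `v_sq`:
`d ≤ n`. `v_sum`: `= ∑ Q ∑ a ∈ ext Q, d (Q+a) (d Q - Av s)`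
`= Av (s+1) ∑ Q d Q (d Q - Av s) + ∑ Q ∑ a (d (Q+a) - Av (s+1)) (d Q - Av s)`, the first sum is `Av (s+1) Sq s`, the
second is at most `(∑∑ (d (Q+a) - Av (s+1))² + ∑∑ (d Q - Av s)²) / 2`. `sq1_le`, `sq0_le`: `Lev.sq1`, `Lev.sq0` and
`DCS.level_le` (once, twice) with `Lev.av1'`, `Lev.av0'`.
-/

open Finset Pool.Agent.Helper2.DC

namespace Pool.Agent.DCL

open Pool.Agent.DCS

variable {V : Type} [Fintype V] [DecidableEq V]

/-- first moment, one vertex removed: a size biased mean -/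
theorem u_sum {H : Finset (Finset V)} {s : ℕ} (hN : 0 < NI H (s + 1)) :
    ∑ S ∈ ind H (s + 2), ∑ w ∈ S, (((ext H (S.erase w)).card : ℝ) - Av H (s + 1)) =
      Sq H (s + 1) := by
  sorry

/-- second moment, one vertex removed -/
theorem u_sq (H : Finset (Finset V)) (s : ℕ) :
    ∑ S ∈ ind H (s + 2), ∑ w ∈ S, (((ext H (S.erase w)).card : ℝ) - Av H (s + 1)) ^ 2 ≤
      (Fintype.card V : ℝ) * Sq H (s + 1) := by
  sorry

/-- second moment, two vertices removed -/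
theorem v_sq (H : Finset (Finset V)) (s : ℕ) :
    ∑ S ∈ ind H (s + 2), ∑ w ∈ S, ∑ w' ∈ S.erase w,
        (((ext H ((S.erase w).erase w')).card : ℝ) - Av H s) ^ 2 ≤
      (Fintype.card V : ℝ) ^ 2 * Sq H s := by
  sorry

/-- first moment, two vertices removed -/
theorem v_sum {H : Finset (Finset V)} {s : ℕ} (hN : 0 < NI H s) (hN1 : 0 < NI H (s + 1)) :
    ∑ S ∈ ind H (s + 2), ∑ w ∈ S, ∑ w' ∈ S.erase w,
        (((ext H ((S.erase w).erase w')).card : ℝ) - Av H s) ≤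
      Av H (s + 1) * Sq H s +
        (((s : ℝ) + 1) * Sq H (s + 1) + (Fintype.card V : ℝ) * Sq H s) / 2 := by
  sorry

/-- the normalised forms: `L = (s + 2) (s + 1) N (s + 2)` is the number of the triples `(S, w, w')` -/
theorem sq1_le {H : Finset (Finset V)} {k s : ℕ} {e : ℝ} (h : Lev V H k s e) :
    ((s : ℝ) + 1) * Sq H (s + 1) ≤
      4 * e / ((k : ℝ) / ((s : ℝ) + 3)) * (Fintype.card V : ℝ) *
        (((s : ℝ) + 2) * ((s : ℝ) + 1) * NI H (s + 2)) := by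
  sorry

theorem sq0_le {H : Finset (Finset V)} {k s : ℕ} {e : ℝ} (h : Lev V H k s e) :
    (Fintype.card V : ℝ) * Sq H s ≤
      8 * e / ((k : ℝ) / ((s : ℝ) + 3)) ^ 2 * (Fintype.card V : ℝ) *
        (((s : ℝ) + 2) * ((s : ℝ) + 1) * NI H (s + 2)) := by
  sorry

end Pool.Agent.DCL
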